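import Mathlib
import Pool.Agent.H302R3.Weak
import Pool.Agent.H302R4.PGLSol
import Pool.Agent.H302R2.PKernel
import Pool.Agent.H302R2.Index2

/-!
# More facts on class functions with nonnegative multiplicities on solvable subgroups
-/

set_option autoImplicit false

namespace Pool.Agent.H302R5

open Pool.Agent.H302R2 Pool.Agent.H302R3 Pool.Agent.H302R4

universe u

/-- The group generated by `(x, -1)` and `(y, -1)` for involutions `x`, `y` is solvable. -/
lemma dihedral_sol {G : Type*} [Group G] {x y : G} (hx2 : x * x = 1) (hy2 : y * y = 1) :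
    Group.IsSolvable (Subgroup.closure ({(x, -1), (y, -1)} : Set (G × ℤˣ))) := by
  have hdesc : ∀ e ∈ Subgroup.closure ({(x, -1), (y, -1)} : Set (G × ℤˣ)),
      (∃ k : ℤ, e = ((x * y) ^ k, 1)) ∨ (∃ k : ℤ, e = ((x * y) ^ k * x, -1)) := by
    intro e he
    have hxi : x⁻¹ = x := inv_eq_of_mul_eq_one_left hx2
    have hyi : y⁻¹ = y := inv_eq_of_mul_eq_one_left hy2
    have hinv : (x * y)⁻¹ = y * x := by rw [mul_inv_rev, hxi, hyi]
    have hxc : ∀ k : ℤ, x * (x * y) ^ k = (x * y) ^ (-k) * x := by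
      intro k
      have h1 : x * (x * y) * x⁻¹ = (x * y)⁻¹ := by
        rw [hinv, hxi, ← mul_assoc, hx2, one_mul]
      have h2 : x * (x * y) ^ k * x⁻¹ = ((x * y)⁻¹) ^ k := by
        rw [← h1]; exact (conj_zpow).symm
      rw [inv_zpow'] at h2
      rw [← h2, inv_mul_cancel_right]
    have hy' : y = (x * y) ^ (-1 : ℤ) * x := by
      rw [zpow_neg_one, hinv, mul_assoc, hx2, mul_one]
    induction he using Subgroup.closure_induction with
    | mem e he =>
      rcases he with rfl | he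
      · right; exact ⟨0, by simp⟩
      · rw [Set.mem_singleton_iff.mp he]
        right; exact ⟨-1, by rw [← hy']⟩
    | one => left; exact ⟨0, by simp; rfl⟩
    | mul a b _ _ ha hb =>
      rcases ha with ⟨k, rfl⟩ | ⟨k, rfl⟩ <;> rcases hb with ⟨l, rfl⟩ | ⟨l, rfl⟩
      · left; exact ⟨k + l, by simp [zpow_add]⟩
      · right; exact ⟨k + l, by simp [zpow_add, mul_assoc]⟩
      · right
        refine ⟨k - l, ?_⟩
        simp only [Prod.mk_mul_mk, mul_one, Prod.mk.injEq, and_true]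
        rw [mul_assoc, hxc, ← mul_assoc, ← zpow_add, sub_eq_add_neg]
      · left
        refine ⟨k - l, ?_⟩
        simp only [Prod.mk_mul_mk, Prod.mk.injEq]
        constructor
        · rw [mul_assoc ((x*y)^k) x, ← mul_assoc x, hxc, mul_assoc _ x x, hx2, mul_one, ← zpow_add,
            sub_eq_add_neg]
        · simp
    | inv a _ ha =>
      rcases ha with ⟨k, rfl⟩ | ⟨k, rfl⟩
      · left; exact ⟨-k, by simp⟩
      · right
        refine ⟨k, ?_⟩
        simp only [Prod.inv_mk, mul_inv_rev, hxi, Prod.mk.injEq]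
        constructor
        · rw [← zpow_neg, hxc, neg_neg]
        · simp
  set E := Subgroup.closure ({(x, -1), (y, -1)} : Set (G × ℤˣ)) with hE
  refine sol_of_commutators (((MonoidHom.snd G ℤˣ).comp E.subtype).ker) ?_ ?_
  · intro a b
    rw [MonoidHom.mem_ker, map_mul, map_mul, map_mul, map_inv, map_inv,
      mul_comm (((MonoidHom.snd G ℤˣ).comp E.subtype) a), mul_inv_cancel_right, mul_inv_cancel]
  · intro a ha b hb
    rw [MonoidHom.mem_ker] at ha hb
    have key : ∀ e : E, ((MonoidHom.snd G ℤˣ).comp E.subtype) e = 1 →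
        ∃ k : ℤ, (e : G × ℤˣ) = ((x * y) ^ k, 1) := by
      intro e he
      rcases hdesc e e.2 with h | ⟨k, hk⟩
      · exact h
      · exfalso
        have h1 : (e : G × ℤˣ).2 = 1 := he
        rw [hk] at h1
        have h2 : (-1 : ℤˣ) = 1 := h1
        exact absurd h2 (by decide)
    obtain ⟨k, hk⟩ := key a ha
    obtain ⟨l, hl⟩ := key b hb
    apply Subtype.ext
    rw [Subgroup.coe_mul, Subgroup.coe_mul, hk, hl, Prod.mk_mul_mk, Prod.mk_mul_mk,
      ((Commute.refl (x * y)).zpow_zpow k l).eq]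

section basics

variable {G : Type*} [Group G] [Finite G] {θ : G → ℂ}

/-- Two involutions in the kernel have their product in the kernel. -/
lemma _root_.Pool.Agent.H302R3.IsSolHeilbronn.mul_of_invol (hθ : IsSolHeilbronn θ) {x y : G}
    (hx2 : x * x = 1) (hy2 : y * y = 1) (hx : θ x = θ 1) (hy : θ y = θ 1) :
    θ (x * y) = θ 1 := by
  set E := Subgroup.closure ({(x, -1), (y, -1)} : Set (G × ℤˣ)) with hE
  have h1 := hθ.comp_sol (dihedral_sol hx2 hy2) ((MonoidHom.fst G ℤˣ).comp E.subtype)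
  have hX : ((x, -1) : G × ℤˣ) ∈ E := Subgroup.subset_closure (by simp)
  have hY : ((y, -1) : G × ℤˣ) ∈ E := Subgroup.subset_closure (by simp)
  have h2 := h1.mul_of_invol (x := ⟨(x, -1), hX⟩) (y := ⟨(y, -1), hY⟩)
    (Subtype.ext (by
      change ((x, -1) : G × ℤˣ) * (x, -1) = 1
      rw [Prod.mk_mul_mk, hx2]; rfl))
    (Subtype.ext (by
      change ((y, -1) : G × ℤˣ) * (y, -1) = 1
      rw [Prod.mk_mul_mk, hy2]; rfl))
    (by simpa using hx) (by simpa using hy)
  simpa using h2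

lemma pgroup_sol {p : ℕ} (hp : p.Prime) {P : Type*} [Group P] [Finite P] (hP : IsPGroup p P) :
    Group.IsSolvable P := by
  have : Fact p.Prime := ⟨hp⟩
  have := hP.isNilpotent
  infer_instance

/-- Two elements of a `p`-subgroup where `θ = θ 1` have a product with the same property. -/
lemma _root_.Pool.Agent.H302R3.IsSolHeilbronn.pgroup_mul {G : Type u} [Group G] [Finite G]
    {θ : G → ℂ} (hθ : IsSolHeilbronn θ) {p : ℕ} (hp : p.Prime) {R : Subgroup G}
    (hR : IsPGroup p R) {x y : G} (hxR : x ∈ R) (hyR : y ∈ R) (hx : θ x = θ 1)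
    (hy : θ y = θ 1) : θ (x * y) = θ 1 := by
  have : Fact p.Prime := ⟨hp⟩
  have h1 := hθ.comp_sol (pgroup_sol hp hR) R.subtype
  have hR' : IsPGroup p (⊤ : Subgroup R) := hR.to_subgroup ⊤
  have h2 := h1.pgroup_mul hR' (x := ⟨x, hxR⟩) (y := ⟨y, hyR⟩) (Subgroup.mem_top _)
    (Subgroup.mem_top _) (by simpa using hx) (by simpa using hy)
  simpa using h2

end basics

section index

variable {G : Type u} [Group G] [Finite G] {θ : G → ℂ}

/-- reduction to 2-elements -/
lemma exists_two_part' (hθ : IsSolHeilbronn θ) (χ : G →* ℤˣ) (hχ : ∀ g, χ g = 1 → θ g = θ 1)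
    {g : G} (hg : χ g = -1) :
    ∃ g' : G, θ g' = θ g ∧ χ g' = -1 ∧ ∃ k : ℕ, g' ^ (2 ^ k) = 1 := by
  have hpos : 0 < orderOf g := orderOf_pos g
  obtain ⟨a, b, hb, hab⟩ := Nat.exists_eq_two_pow_mul_odd hpos.ne'
  have ha : a ≠ 0 := by
    rintro rfl
    rw [pow_zero, one_mul] at hab
    have h1 : g ^ b = 1 := by rw [← hab]; exact pow_orderOf_eq_one g
    have h2 := congrArg χ h1
    rw [map_pow, map_one, hg, hb.neg_one_pow] at h2
    exact absurd h2 (by decide)
  have hcop : IsCoprime (b : ℤ) ((2 ^ a : ℕ) : ℤ) := by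
    rw [Nat.isCoprime_iff_coprime]
    exact Nat.Coprime.pow_right a (Nat.Coprime.symm (Nat.coprime_two_left.mpr hb))
  obtain ⟨u, v, huv⟩ := hcop
  have h1 : g = g ^ (u * b) * g ^ (v * ((2 ^ a : ℕ) : ℤ)) := by
    rw [← zpow_add, huv, zpow_one]
  have h2 : χ (g ^ (v * ((2 ^ a : ℕ) : ℤ))) = 1 := by
    rw [map_zpow, hg, mul_comm, zpow_mul, zpow_natCast]
    have : Even (2 ^ a) := (Nat.even_pow.mpr ⟨even_two, ha⟩)
    rw [this.neg_one_pow, one_zpow]
  have h3 : χ (g ^ (u * b)) = -1 := by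
    have := congrArg χ h1
    rw [map_mul, h2, mul_one, hg] at this
    exact this.symm
  refine ⟨g ^ (u * b), ?_, h3, a, ?_⟩
  · conv_rhs => rw [h1]
    exact (hθ.mul_of_comm ((Commute.refl g).zpow_zpow _ _).eq (hχ _ h2)).symm
  · rw [← zpow_natCast, ← zpow_mul, mul_assoc, ← Nat.cast_mul, mul_comm b, ← hab, mul_comm u,
      zpow_mul, zpow_natCast, pow_orderOf_eq_one, one_zpow]

theorem index_two' (hθ : IsSolHeilbronn θ) (χ : G →* ℤˣ) (hχ : ∀ g, χ g = 1 → θ g = θ 1) {g h : G}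
    (hg : χ g = -1) (hh : χ h = -1) : θ g = θ h := by
  have : Fact (Nat.Prime 2) := ⟨Nat.prime_two⟩
  obtain ⟨g', hg1, hg2, k, hk⟩ := exists_two_part' hθ χ hχ hg
  obtain ⟨h', hh1, hh2, l, hl⟩ := exists_two_part' hθ χ hχ hh
  rw [← hg1, ← hh1]
  have hp : ∀ (x : G) (j : ℕ), x ^ (2 ^ j) = 1 → IsPGroup 2 (Subgroup.zpowers x) := by
    intro x j hx
    rintro ⟨_, i, rfl⟩
    refine ⟨j, Subtype.ext ?_⟩
    change (x ^ i) ^ (2 ^ j) = 1
    rw [← zpow_natCast, ← zpow_mul, mul_comm, zpow_mul, zpow_natCast, hx, one_zpow]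
  obtain ⟨P, hP⟩ := (hp g' k hk).exists_le_sylow
  obtain ⟨Q, hQ⟩ := (hp h' l hl).exists_le_sylow
  obtain ⟨c, hc⟩ := MulAction.exists_smul_eq G Q P
  have hgP : g' ∈ P := hP (Subgroup.mem_zpowers g')
  have hhP : c * h' * c⁻¹ ∈ P := by
    rw [← hc]
    exact Subgroup.smul_mem_pointwise_smul h' (MulAut.conj c) (Q : Subgroup G)
      (hQ (Subgroup.mem_zpowers h'))
  rw [← hθ.conj h' c]
  have key := index_two_pgroup (Nat.card P) P rfl P.isPGroup' (fun x => θ x)
    (hθ.comp_sol (pgroup_sol Nat.prime_two P.isPGroup') (P : Subgroup G).subtype)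
    (χ.comp (P : Subgroup G).subtype)
    (fun x hx => hχ x hx) ⟨g', hgP⟩ ⟨c * h' * c⁻¹, hhP⟩ hg2 (by
      change χ (c * h' * c⁻¹) = -1
      rw [map_mul, map_mul, map_inv, mul_right_comm, mul_inv_cancel, one_mul, hh2])
  exact key

end index

end Pool.Agent.H302R5
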