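import Mathlib
import Pool.Agent.H302R5.Weak2
import Pool.Agent.H302R2.SymD

/-!
# Heilbronn functions on alternating groups: from one involution to everything
-/

set_option autoImplicit false

namespace Pool.Agent.H302R5

open Equiv Equiv.Perm Pool.Agent.H302R2 Pool.Agent.H302R3

section inK

variable {α : Type*} [Fintype α] [DecidableEq α]

/-- membership in the kernel of `θ` -/
def InW (θ : alternatingGroup α → ℂ) (g : Perm α) : Prop :=
  ∃ h : g ∈ alternatingGroup α, θ ⟨g, h⟩ = θ 1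

variable {θ : alternatingGroup α → ℂ}

lemma InW.sign {g : Perm α} (h : InW θ g) : sign g = 1 := mem_alternatingGroup.mp h.1

lemma InW.one : InW θ 1 := ⟨one_mem _, rfl⟩

lemma InW.mul (hθ : IsSolHeilbronn θ) {x y : Perm α} (hx : InW θ x) (hy : InW θ y)
    (hxy : x * y = y * x) : InW θ (x * y) := by
  obtain ⟨h1, h2⟩ := hx
  obtain ⟨h3, h4⟩ := hy
  refine ⟨mul_mem h1 h3, ?_⟩
  have := hθ.mul_of_comm (x := ⟨x, h1⟩) (y := ⟨y, h3⟩) (Subtype.ext hxy) h4
  rw [← h2, ← this]; rfl

lemma InW.conj (hθ : IsSolHeilbronn θ) {x c : Perm α} (hx : InW θ x) (hc : Perm.sign c = 1) :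
    InW θ (c * x * c⁻¹) := by
  obtain ⟨h1, h2⟩ := hx
  have hc' : c ∈ alternatingGroup α := mem_alternatingGroup.mpr hc
  refine ⟨mul_mem (mul_mem hc' h1) (inv_mem hc'), ?_⟩
  have := hθ.conj ⟨x, h1⟩ ⟨c, hc'⟩
  rw [h2] at this
  rw [← this]; rfl

lemma InW.mul_invol (hθ : IsSolHeilbronn θ) {x y : Perm α} (hx : InW θ x) (hy : InW θ y)
    (hx2 : x * x = 1) (hy2 : y * y = 1) : InW θ (x * y) := by
  obtain ⟨h1, h2⟩ := hx
  obtain ⟨h3, h4⟩ := hy
  refine ⟨mul_mem h1 h3, ?_⟩
  have := hθ.mul_of_invol (x := ⟨x, h1⟩) (y := ⟨y, h3⟩) (Subtype.ext hx2) (Subtype.ext hy2) h2 h4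
  rw [← this]; rfl

/-- Kernel lemma transported to permutations, with a general linear character -/
lemma InW.kernel (hθ : IsSolHeilbronn θ) {E : Type*} [Group E] [Finite E]
    (hE : Group.IsSolvable E) (φ : E →* Perm α) (hφ : ∀ e, Perm.sign (φ e) = 1) (χ : E →* ℂˣ) {e₀ : E} (he₀ : χ e₀ ≠ 1)
    (h : ∀ e, χ e ≠ 1 → InW θ (φ e)) (e : E) : InW θ (φ e) := by
  let φ' : E →* alternatingGroup α :=
    φ.codRestrict (alternatingGroup α) (fun e => mem_alternatingGroup.mpr (hφ e))
  refine ⟨mem_alternatingGroup.mpr (hφ e), ?_⟩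
  exact hθ.kernel_lemma hE φ' χ he₀ (fun e he => (h e he).2) e

/-- one even involution in the kernel gives all products of two disjoint transpositions -/
lemma InW.double_swap_of_invol (hθ : IsSolHeilbronn θ) {x : Perm α} (hx : InW θ x) (hx2 : x * x = 1)
    (hx1 : x ≠ 1) :
    ∃ a b c d : α, a ≠ b ∧ a ≠ c ∧ a ≠ d ∧ b ≠ c ∧ b ≠ d ∧ c ≠ d ∧
      InW θ (swap a d * swap b c) := by
  classical
  have hinv : ∀ y, x (x y) = y := fun y => by
    rw [← Perm.mul_apply, hx2, Perm.one_apply]
  obtain ⟨a, ha⟩ : ∃ a, x a ≠ a := by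
    by_contra hcon
    push Not at hcon
    exact hx1 (Equiv.ext hcon)
  obtain ⟨c, hc, hca, hcb⟩ : ∃ c, x c ≠ c ∧ c ≠ a ∧ c ≠ x a := by
    by_contra hcon
    push Not at hcon
    have hx' : x = swap a (x a) := by
      ext y
      by_cases hya : y = a
      · rw [hya, swap_apply_left]
      · by_cases hyb : y = x a
        · rw [hyb, swap_apply_right, hinv]
        · rw [swap_apply_of_ne_of_ne hya hyb]
          by_contra hy
          exact hyb (hcon y hy hya)
    have h1 := hx.sign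
    rw [hx', sign_swap ha.symm] at h1
    exact absurd h1 (by decide)
  set b := x a with hb
  set d := x c with hd
  have hab : a ≠ b := ha.symm
  have hcd : c ≠ d := hc.symm
  have had : a ≠ d := fun h => hcb (by rw [hb, h, hd, hinv])
  have hbd : b ≠ d := fun h => hca (x.injective (by rw [← hd, ← h]))
  have hxb : x b = a := hinv a
  have hxd : x d = c := hinv c
  set c3 := swap b c * swap c d with hc3
  have hc3s : Perm.sign c3 = 1 := by
    rw [hc3, Perm.sign_mul, sign_swap hcb.symm, sign_swap hcd]; rfl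
  have e1 : c3 a = a := by
    rw [hc3, Perm.mul_apply, swap_apply_of_ne_of_ne hca.symm had, swap_apply_of_ne_of_ne hab hca.symm]
  have e2 : c3 b = c := by
    rw [hc3, Perm.mul_apply, swap_apply_of_ne_of_ne hcb.symm hbd, swap_apply_left]
  have e3 : c3 c = d := by
    rw [hc3, Perm.mul_apply, swap_apply_left, swap_apply_of_ne_of_ne hbd.symm hcd.symm]
  have e4 : c3 d = b := by
    rw [hc3, Perm.mul_apply, swap_apply_right, swap_apply_right]
  have e5 : ∀ z, z ≠ b → z ≠ c → z ≠ d → c3 z = z := by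
    intro z h1 h2 h3
    rw [hc3, Perm.mul_apply, swap_apply_of_ne_of_ne h2 h3, swap_apply_of_ne_of_ne h1 h2]
  set y := c3 * x * c3⁻¹ with hy
  have hyK : InW θ y := hx.conj hθ hc3s
  have f1 : y a = c := by
    rw [hy, Perm.mul_apply, Perm.mul_apply, (inv_eq_iff_eq.mpr e1.symm), ← hb, e2]
  have f2 : y b = d := by
    rw [hy, Perm.mul_apply, Perm.mul_apply, (inv_eq_iff_eq.mpr e4.symm), hxd, e3]
  have f3 : y c = a := by
    rw [hy, Perm.mul_apply, Perm.mul_apply, (inv_eq_iff_eq.mpr e2.symm), hxb, e1]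
  have f4 : y d = b := by
    rw [hy, Perm.mul_apply, Perm.mul_apply, (inv_eq_iff_eq.mpr e3.symm), ← hd, e4]
  have f5 : ∀ z, z ≠ a → z ≠ b → z ≠ c → z ≠ d → y z = x z := by
    intro z h1 h2 h3 h4
    rw [hy, Perm.mul_apply, Perm.mul_apply, (inv_eq_iff_eq.mpr (e5 z h2 h3 h4).symm)]
    apply e5
    · intro h; apply h1; rw [← hxb, ← h, hinv]
    · intro h; apply h4; rw [hd, ← h, hinv]
    · intro h; apply h3; rw [← hxd, ← h, hinv]
  have hkey : ∀ z, x (y z) = (swap a d * swap b c) z := by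
    intro z
    by_cases h1 : z = a
    · rw [h1, f1, Perm.mul_apply, swap_apply_of_ne_of_ne hab hca.symm, swap_apply_left]
    by_cases h2 : z = b
    · rw [h2, f2, hxd, Perm.mul_apply, swap_apply_left, swap_apply_of_ne_of_ne hca hcd]
    by_cases h3 : z = c
    · rw [h3, f3, Perm.mul_apply, swap_apply_right, swap_apply_of_ne_of_ne hab.symm hbd]
    by_cases h4 : z = d
    · rw [h4, f4, hxb, Perm.mul_apply, swap_apply_of_ne_of_ne hbd.symm hcd.symm, swap_apply_right]
    rw [f5 z h1 h2 h3 h4, hinv, Perm.mul_apply, swap_apply_of_ne_of_ne h2 h3,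
      swap_apply_of_ne_of_ne h1 h4]
  have hkey2 : ∀ z, y (x z) = x (y z) := by
    intro z
    by_cases h1 : z = a
    · rw [h1, f1, ← hb, f2]
    by_cases h2 : z = b
    · rw [h2, f2, hxd, hxb, f1]
    by_cases h3 : z = c
    · rw [h3, f3, ← hd, f4]
    by_cases h4 : z = d
    · rw [h4, f4, hxb, hxd, f3]
    rw [f5 z h1 h2 h3 h4, hinv, f5 (x z), hinv]
    · intro h; apply h2; rw [hb, ← h, hinv]
    · intro h; apply h1; rw [← hxb, ← h, hinv]
    · intro h; apply h4; rw [hd, ← h, hinv]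
    · intro h; apply h3; rw [← hxd, ← h, hinv]
  refine ⟨a, b, c, d, hab, hca.symm, had, hcb.symm, hbd, hcd, ?_⟩
  have h1 : x * y = swap a d * swap b c := Equiv.ext hkey
  rw [← h1]
  exact hx.mul hθ hyK (Equiv.ext fun z => (hkey2 z).symm)

/-- all double transpositions are in the kernel -/
lemma InW.double_swap (hθ : IsSolHeilbronn θ) {x : Perm α} (hx : InW θ x) (hx2 : x * x = 1)
    (hx1 : x ≠ 1) {a b c d : α} (hab : a ≠ b) (hac : a ≠ c) (had : a ≠ d)
    (hbc : b ≠ c) (hbd : b ≠ d) (hcd : c ≠ d) : InW θ (swap a b * swap c d) := by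
  obtain ⟨a', b', c', d', h1, h2, h3, h4, h5, h6, hK⟩ := hx.double_swap_of_invol hθ hx2 hx1
  have hconj : IsConj (swap a' d' * swap b' c') (swap a b * swap c d) := by
    rw [isConj_iff_cycleType_eq, cycleType_double_swap h3 h1 h2 h5.symm h6.symm h4,
      cycleType_double_swap hab hac had hbc hbd hcd]
  obtain ⟨g, hg⟩ := isConj_iff.mp hconj
  rcases Int.units_eq_one_or (Perm.sign g) with hs | hs
  · rw [← hg]; exact hK.conj hθ hs
  · -- multiply by swap a' d'
    have hs' : Perm.sign (g * swap a' d') = 1 := by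
      rw [Perm.sign_mul, hs, sign_swap h3]; rfl
    have hcomm : swap a' d' * (swap a' d' * swap b' c') * (swap a' d')⁻¹
        = swap a' d' * swap b' c' := by
      have hdis : Disjoint (swap a' d') (swap b' c') := by
        rw [disjoint_iff_disjoint_support, support_swap h3, support_swap h4]
        simp only [Finset.disjoint_insert_left, Finset.mem_insert, Finset.mem_singleton,
          Finset.disjoint_singleton_left, not_or]
        exact ⟨⟨h1, h2⟩, ⟨h5.symm, h6.symm⟩⟩
      rw [mul_assoc, mul_assoc, ← hdis.commute.inv_left.eq, ← mul_assoc (swap a' d') (swap a' d')⁻¹,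
        mul_inv_cancel, one_mul]
    have : (g * swap a' d') * (swap a' d' * swap b' c') * (g * swap a' d')⁻¹
        = swap a b * swap c d := by
      rw [← hg, mul_inv_rev]
      conv_rhs => rw [← hcomm]
      group
    rw [← this]; exact hK.conj hθ hs'

end inK

end Pool.Agent.H302R5
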