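import Mathlib
import Pool.Agent.H302R5.SymA

/-!
# Heilbronn functions on alternating groups: cycle analysis
-/

set_option autoImplicit false

namespace Pool.Agent.H302R5

open Equiv Equiv.Perm Pool.Agent.H302R2 Pool.Agent.H302R3

section inK

variable {α : Type*} [Fintype α] [DecidableEq α] {θ : alternatingGroup α → ℂ}

/-- the kernel contains all products of two disjoint transpositions -/
def HasDS (θ : alternatingGroup α → ℂ) : Prop :=
  ∀ a b c d : α, a ≠ b → a ≠ c → a ≠ d → b ≠ c → b ≠ d → c ≠ d →
    InW θ (swap a b * swap c d)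

lemma InW.of_invol (hθ : IsSolHeilbronn θ) (hD : HasDS θ) :
    ∀ (N : ℕ) (z : Perm α), z.support.card = N → z * z = 1 → Perm.sign z = 1 → InW θ z := by
  classical
  intro N
  induction N using Nat.strong_induction_on with
  | _ N ih =>
    intro z hzN hz2 hzs
    by_cases hz1 : z = 1
    · rw [hz1]; exact InW.one
    have hinv : ∀ y, z (z y) = y := fun y => by
      rw [← Perm.mul_apply, hz2, Perm.one_apply]
    obtain ⟨a, ha⟩ : ∃ a, z a ≠ a := by
      by_contra hcon
      push Not at hcon
      exact hz1 (Equiv.ext hcon)
    obtain ⟨c, hc, hca, hcb⟩ : ∃ c, z c ≠ c ∧ c ≠ a ∧ c ≠ z a := by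
      by_contra hcon
      push Not at hcon
      have hx' : z = swap a (z a) := by
        ext y
        by_cases hya : y = a
        · rw [hya, swap_apply_left]
        · by_cases hyb : y = z a
          · rw [hyb, swap_apply_right, hinv]
          · rw [swap_apply_of_ne_of_ne hya hyb]
            by_contra hy
            exact hyb (hcon y hy hya)
      rw [hx', sign_swap ha.symm] at hzs
      exact absurd hzs (by decide)
    set b := z a with hb
    set d := z c with hd
    have hab : a ≠ b := ha.symm
    have hcd : c ≠ d := hc.symm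
    have had : a ≠ d := fun h => hcb (by rw [hb, h, hd, hinv])
    have hbd : b ≠ d := fun h => hca (z.injective (by rw [← hd, ← h]))
    have hzb : z b = a := hinv a
    have hzd : z d = c := hinv c
    set t := swap a b * swap c d with ht
    have t1 : t a = b := by
      rw [ht, Perm.mul_apply, swap_apply_of_ne_of_ne hca.symm had, swap_apply_left]
    have t2 : t b = a := by
      rw [ht, Perm.mul_apply, swap_apply_of_ne_of_ne hcb.symm hbd, swap_apply_right]
    have t3 : t c = d := by
      rw [ht, Perm.mul_apply, swap_apply_left, swap_apply_of_ne_of_ne had.symm hbd.symm]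
    have t4 : t d = c := by
      rw [ht, Perm.mul_apply, swap_apply_right, swap_apply_of_ne_of_ne hca hcb]
    have t5 : ∀ y, y ≠ a → y ≠ b → y ≠ c → y ≠ d → t y = y := by
      intro y h1 h2 h3 h4
      rw [ht, Perm.mul_apply, swap_apply_of_ne_of_ne h3 h4, swap_apply_of_ne_of_ne h1 h2]
    have ht2 : t * t = 1 := by
      ext y
      rw [Perm.mul_apply, Perm.one_apply]
      by_cases h1 : y = a
      · rw [h1, t1, t2]
      by_cases h2 : y = b
      · rw [h2, t2, t1]
      by_cases h3 : y = c
      · rw [h3, t3, t4]
      by_cases h4 : y = d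
      · rw [h4, t4, t3]
      rw [t5 y h1 h2 h3 h4, t5 y h1 h2 h3 h4]
    have htz : ∀ y, t (z y) = z (t y) := by
      intro y
      by_cases h1 : y = a
      · rw [h1, t1, ← hb, t2, hzb]
      by_cases h2 : y = b
      · rw [h2, t2, hzb, t1]
      by_cases h3 : y = c
      · rw [h3, t3, ← hd, t4, hzd]
      by_cases h4 : y = d
      · rw [h4, t4, hzd, t3]
      rw [t5 y h1 h2 h3 h4, t5 (z y)]
      · intro h; apply h2; rw [hb, ← h, hinv]
      · intro h; apply h1; rw [← hzb, ← h, hinv]
      · intro h; apply h4; rw [hd, ← h, hinv]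
      · intro h; apply h3; rw [← hzd, ← h, hinv]
    have hcomm : t * z = z * t := Equiv.ext htz
    have hts : Perm.sign t = 1 := by
      rw [ht, Perm.sign_mul, sign_swap hab, sign_swap hcd]; rfl
    have hz'2 : (t * z) * (t * z) = 1 := by
      calc (t * z) * (t * z) = t * (z * t) * z := by group
        _ = t * (t * z) * z := by rw [hcomm]
        _ = (t * t) * (z * z) := by group
        _ = 1 := by rw [ht2, hz2, one_mul]
    have hz's : Perm.sign (t * z) = 1 := by rw [Perm.sign_mul, hts, hzs, one_mul]
    have hlt : (t * z).support.card < z.support.card := by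
      apply Finset.card_lt_card
      rw [Finset.ssubset_iff_of_subset]
      · refine ⟨a, mem_support.mpr ha, ?_⟩
        rw [notMem_support, Perm.mul_apply, ← hb, t2]
      · intro y hy
        rw [mem_support] at hy ⊢
        intro hzy
        apply hy
        rw [Perm.mul_apply, hzy]
        apply t5
        · rintro rfl; exact ha hzy
        · intro h; rw [h, hzb] at hzy; exact hab hzy
        · rintro rfl; exact hc hzy
        · intro h; rw [h, hzd] at hzy; exact hcd hzy
    have h1 := ih _ (hzN ▸ hlt) (t * z) rfl hz'2 hz's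
    have h2 : InW θ t := hD a b c d hab hca.symm had hcb.symm hbd hcd
    have h3 := h2.mul hθ h1 (by
      calc t * (t * z) = t * (z * t) := by rw [hcomm]
        _ = (t * z) * t := by group)
    have h4 : t * (t * z) = z := by rw [← mul_assoc, ht2, one_mul]
    rwa [h4] at h3

lemma InW.of_two_invol (hθ : IsSolHeilbronn θ) (hD : HasDS θ) {s g : Perm α}
    (hs : s * s = 1) (hsg : (s * g) * (s * g) = 1) (hss : Perm.sign s = 1)
    (hsg' : Perm.sign g = 1) : InW θ g := by
  have h1 := InW.of_invol hθ hD _ s rfl hs hss
  have h2 := InW.of_invol hθ hD _ (s * g) rfl hsg (by rw [Perm.sign_mul, hss, hsg', one_mul])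
  have h3 := h1.mul_invol hθ h2 hs hsg
  rwa [← mul_assoc, hs, one_mul] at h3

/-- odd-length cycles missing two points -/
lemma InW.of_odd_cycle (hθ : IsSolHeilbronn θ) (hD : HasDS θ) {c : Perm α}
    (hc : c.IsCycle) (hcs : Perm.sign c = 1) (hcard : c.support.card + 2 ≤ Fintype.card α) :
    InW θ c := by
  classical
  obtain ⟨s, hs2, hsc, hsupp⟩ := exists_reflection hc
  have hsc2 : (s * c) * (s * c) = 1 := by
    calc (s * c) * (s * c) = (s * c * s) * c := by group
      _ = 1 := by rw [hsc, inv_mul_cancel]
  rcases Int.units_eq_one_or (Perm.sign s) with hss | hss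
  · exact InW.of_two_invol hθ hD hs2 hsc2 hss hcs
  · obtain ⟨a, ha, b, hb, hab⟩ : ∃ a ∈ c.supportᶜ, ∃ b ∈ c.supportᶜ, a ≠ b := by
      apply Finset.one_lt_card.mp
      rw [Finset.card_compl]; omega
    rw [Finset.mem_compl] at ha hb
    set τ := swap a b with hτ
    have hdτc : Disjoint τ c := by
      rw [disjoint_iff_disjoint_support, hτ, support_swap hab]
      simp only [Finset.disjoint_insert_left, Finset.disjoint_singleton_left]
      exact ⟨ha, hb⟩
    have hdτs : Disjoint τ s := by
      rw [disjoint_iff_disjoint_support] at hdτc ⊢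
      exact hdτc.mono_right hsupp
    have hτ2 : τ * τ = 1 := swap_mul_self a b
    have h1 : (τ * s) * (τ * s) = 1 := by
      calc (τ * s) * (τ * s) = τ * (s * τ) * s := by group
        _ = τ * (τ * s) * s := by rw [hdτs.commute.eq]
        _ = (τ * τ) * (s * s) := by group
        _ = 1 := by rw [hτ2, hs2, one_mul]
    have hcom : Commute τ (s * c) := hdτs.commute.mul_right hdτc.commute
    have h2 : (τ * s * c) * (τ * s * c) = 1 := by
      calc (τ * s * c) * (τ * s * c) = τ * ((s * c) * τ) * (s * c) := by group
        _ = τ * (τ * (s * c)) * (s * c) := by rw [hcom.eq]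
        _ = (τ * τ) * ((s * c) * (s * c)) := by group
        _ = 1 := by rw [hτ2, hsc2, one_mul]
    refine InW.of_two_invol hθ hD h1 h2 ?_ hcs
    rw [Perm.sign_mul, hτ, sign_swap hab, hss]; rfl

/-- products of two disjoint even-length cycles -/
lemma InW.of_even_cycles (hθ : IsSolHeilbronn θ) (hD : HasDS θ) {c c' : Perm α}
    (hc : c.IsCycle) (hcs : Perm.sign c = -1) (hc' : c'.IsCycle) (hcs' : Perm.sign c' = -1)
    (hdis : Disjoint c c') : InW θ (c * c') := by
  classical
  obtain ⟨s, hs2, hsc, hsupp⟩ := exists_reflection hc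
  obtain ⟨t, ht2, htc, htsupp, hts⟩ : ∃ t : Perm α, t * t = 1 ∧ t * c' * t = c'⁻¹ ∧
      t.support ⊆ c'.support ∧ Perm.sign t = Perm.sign s := by
    obtain ⟨s', hs2', hsc', hsupp'⟩ := exists_reflection hc'
    by_cases hss : Perm.sign s' = Perm.sign s
    · exact ⟨s', hs2', hsc', hsupp', hss⟩
    · refine ⟨s' * c', ?_, ?_, ?_, ?_⟩
      · calc (s' * c') * (s' * c') = (s' * c' * s') * c' := by group
          _ = 1 := by rw [hsc', inv_mul_cancel]
      · have h1 : s' * c' * c' * s' = c'⁻¹ * c'⁻¹ := by
          calc s' * c' * c' * s' = s' * c' * (s' * s') * c' * s' := by rw [hs2']; group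
            _ = (s' * c' * s') * (s' * c' * s') := by group
            _ = c'⁻¹ * c'⁻¹ := by rw [hsc']
        calc s' * c' * c' * (s' * c') = (s' * c' * c' * s') * c' := by group
          _ = c'⁻¹ := by rw [h1]; group
      · refine (support_mul_le s' c').trans ?_
        exact Finset.union_subset hsupp' (le_refl _)
      · rw [Perm.sign_mul, hcs']
        rcases Int.units_eq_one_or (Perm.sign s') with h1 | h1
        · rcases Int.units_eq_one_or (Perm.sign s) with h2 | h2
          · exact absurd (h1.trans h2.symm) hss
          · rw [h1, h2]; rfl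
        · rcases Int.units_eq_one_or (Perm.sign s) with h2 | h2
          · rw [h1, h2]; rfl
          · exact absurd (h1.trans h2.symm) hss
  have hd1 : Disjoint s t := by
    rw [disjoint_iff_disjoint_support] at hdis ⊢
    exact (hdis.mono_left hsupp).mono_right htsupp
  have hd2 : Disjoint t c := by
    rw [disjoint_iff_disjoint_support] at hdis ⊢
    exact (hdis.symm.mono_left htsupp)
  have hd3 : Disjoint s c' := by
    rw [disjoint_iff_disjoint_support] at hdis ⊢
    exact (hdis.mono_left hsupp)
  have hsc2 : (s * c) * (s * c) = 1 := by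
    calc (s * c) * (s * c) = (s * c * s) * c := by group
      _ = 1 := by rw [hsc, inv_mul_cancel]
  have htc2 : (t * c') * (t * c') = 1 := by
    calc (t * c') * (t * c') = (t * c' * t) * c' := by group
      _ = 1 := by rw [htc, inv_mul_cancel]
  have h1 : (s * t) * (s * t) = 1 := by
    calc (s * t) * (s * t) = s * (t * s) * t := by group
      _ = s * (s * t) * t := by rw [hd1.commute.eq]
      _ = (s * s) * (t * t) := by group
      _ = 1 := by rw [hs2, ht2, one_mul]
  have h2 : s * t * (c * c') = (s * c) * (t * c') := by
    calc s * t * (c * c') = s * (t * c) * c' := by group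
      _ = s * (c * t) * c' := by rw [hd2.commute.eq]
      _ = (s * c) * (t * c') := by group
  have hcom : Commute (s * c) (t * c') := by
    have a1 : Commute s t := hd1.commute
    have a2 : Commute s c' := hd3.commute
    have a3 : Commute c t := hd2.commute.symm
    have a4 : Commute c c' := hdis.commute
    exact (a1.mul_right a2).mul_left (a3.mul_right a4)
  have h3 : (s * t * (c * c')) * (s * t * (c * c')) = 1 := by
    rw [h2]
    calc (s * c) * (t * c') * ((s * c) * (t * c'))
        = (s * c) * ((t * c') * (s * c)) * (t * c') := by group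
      _ = (s * c) * ((s * c) * (t * c')) * (t * c') := by rw [hcom.eq]
      _ = ((s * c) * (s * c)) * ((t * c') * (t * c')) := by group
      _ = 1 := by rw [hsc2, htc2, one_mul]
  refine InW.of_two_invol hθ hD h1 h3 ?_ ?_
  · rw [Perm.sign_mul, hts]; exact Int.units_mul_self _
  · rw [Perm.sign_mul, hcs, hcs']; rfl

lemma InW.of_good (hθ : IsSolHeilbronn θ) (hD : HasDS θ) :
    ∀ (N : ℕ) (g : Perm α), g.cycleFactorsFinset.card = N → Perm.sign g = 1 →
      (∀ c ∈ g.cycleFactorsFinset, c.support.card + 2 ≤ Fintype.card α) → InW θ g := by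
  classical
  intro N
  induction N using Nat.strong_induction_on with
  | _ N ih =>
    intro g hgN hgs hg
    by_cases hodd : ∃ c ∈ g.cycleFactorsFinset, Perm.sign c = 1
    · obtain ⟨c, hc, hcs⟩ := hodd
      have hcyc : c.IsCycle := (mem_cycleFactorsFinset_iff.mp hc).1
      have h1 : InW θ c := InW.of_odd_cycle hθ hD hcyc hcs (hg c hc)
      have hdis := disjoint_mul_inv_of_mem_cycleFactorsFinset hc
      have hsd := cycleFactorsFinset_mul_inv_mem_eq_sdiff hc
      have h2 : InW θ (g * c⁻¹) := by
        refine ih _ ?_ _ rfl ?_ ?_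
        · rw [hsd, ← hgN]
          exact Finset.card_lt_card (Finset.sdiff_ssubset (Finset.singleton_subset_iff.mpr hc)
            (Finset.singleton_nonempty c))
        · rw [Perm.sign_mul, Perm.sign_inv, hgs, hcs, one_mul]
        · intro d hd
          rw [hsd] at hd
          exact hg d (Finset.mem_sdiff.mp hd).1
      have h3 := h2.mul hθ h1 hdis.commute.eq
      rwa [inv_mul_cancel_right] at h3
    · push Not at hodd
      by_cases hg1 : g = 1
      · rw [hg1]; exact InW.one
      have hne : g.cycleFactorsFinset.Nonempty := by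
        rw [Finset.nonempty_iff_ne_empty, ne_eq, cycleFactorsFinset_eq_empty_iff]; exact hg1
      obtain ⟨c, hc⟩ := hne
      have hcyc : c.IsCycle := (mem_cycleFactorsFinset_iff.mp hc).1
      have hcs : Perm.sign c = -1 := (Int.units_eq_one_or _).resolve_left (hodd c hc)
      have hdis := disjoint_mul_inv_of_mem_cycleFactorsFinset hc
      have hsd := cycleFactorsFinset_mul_inv_mem_eq_sdiff hc
      set g' := g * c⁻¹ with hg'
      have hg's : Perm.sign g' = -1 := by
        rw [hg', Perm.sign_mul, Perm.sign_inv, hgs, hcs, one_mul]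
      have hg'1 : g' ≠ 1 := by
        intro h; rw [h, Perm.sign_one] at hg's; exact absurd hg's (by decide)
      have hne' : g'.cycleFactorsFinset.Nonempty := by
        rw [Finset.nonempty_iff_ne_empty, ne_eq, cycleFactorsFinset_eq_empty_iff]; exact hg'1
      obtain ⟨c', hc'⟩ := hne'
      have hc'g : c' ∈ g.cycleFactorsFinset := by
        rw [hsd] at hc'; exact (Finset.mem_sdiff.mp hc').1
      have hcyc' : c'.IsCycle := (mem_cycleFactorsFinset_iff.mp hc').1
      have hcs' : Perm.sign c' = -1 := (Int.units_eq_one_or _).resolve_left (hodd c' hc'g)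
      have hdis' := disjoint_mul_inv_of_mem_cycleFactorsFinset hc'
      have hsd' := cycleFactorsFinset_mul_inv_mem_eq_sdiff hc'
      set g'' := g' * c'⁻¹ with hg''
      have hdcc : Disjoint c' c := by
        rw [disjoint_iff_disjoint_support] at hdis ⊢
        exact hdis.mono_left (mem_cycleFactorsFinset_support_le hc')
      have hdg'' : Disjoint g'' c := by
        rw [hg'']
        exact hdis.mul_left hdcc.inv_left
      have hlt1 : g''.cycleFactorsFinset.card < g'.cycleFactorsFinset.card := by
        rw [hsd']
        exact Finset.card_lt_card (Finset.sdiff_ssubset (Finset.singleton_subset_iff.mpr hc')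
          (Finset.singleton_nonempty c'))
      have hlt2 : g'.cycleFactorsFinset.card < g.cycleFactorsFinset.card := by
        rw [hsd]
        exact Finset.card_lt_card (Finset.sdiff_ssubset (Finset.singleton_subset_iff.mpr hc)
          (Finset.singleton_nonempty c))
      have h2 : InW θ g'' := by
        refine ih _ ?_ _ rfl ?_ ?_
        · rw [← hgN]; exact hlt1.trans hlt2
        · rw [hg'', Perm.sign_mul, Perm.sign_inv, hg's, hcs']; rfl
        · intro d hd
          rw [hsd'] at hd
          have := (Finset.mem_sdiff.mp hd).1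
          rw [hsd] at this
          exact hg d (Finset.mem_sdiff.mp this).1
      have h1 : InW θ (c' * c) := InW.of_even_cycles hθ hD hcyc' hcs' hcyc hcs hdcc
      have h3 := h2.mul hθ h1 (by
        have : Commute g'' (c' * c) := hdis'.commute.mul_right hdg''.commute
        exact this.eq)
      have h4 : g'' * (c' * c) = g := by rw [hg'', hg']; group
      rwa [h4] at h3

/-- every even permutation which is not a cycle of length `≥ card α - 1` is in the kernel -/
lemma InW.of_not_long (hθ : IsSolHeilbronn θ) (hD : HasDS θ) {g : Perm α}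
    (hgs : Perm.sign g = 1) (hg : g.IsCycle → g.support.card + 2 ≤ Fintype.card α) : InW θ g := by
  classical
  refine InW.of_good hθ hD _ g rfl hgs ?_
  intro c hc
  by_cases hgc : g = c
  · have hcyc : c.IsCycle := (mem_cycleFactorsFinset_iff.mp hc).1
    rw [← hgc]; exact hg (hgc ▸ hcyc)
  · have hdis := disjoint_mul_inv_of_mem_cycleFactorsFinset hc
    have h1 : g * c⁻¹ ≠ 1 := by
      intro h; exact hgc (mul_inv_eq_one.mp h)
    have h2 : 2 ≤ (g * c⁻¹).support.card := two_le_card_support_of_ne_one h1
    rw [disjoint_iff_disjoint_support] at hdis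
    have h3 := Finset.card_union_of_disjoint hdis
    have h4 := Finset.card_le_univ ((g * c⁻¹).support ∪ c.support)
    omega

end inK

end Pool.Agent.H302R5
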