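import Mathlib
import Pool.Agent.H302R5.SymB

/-!
# Weak Heilbronn functions on alternating groups: long cycles
-/

set_option autoImplicit false

namespace Pool.Agent.H302R5

open Equiv Equiv.Perm Pool.Agent.H302R2 Pool.Agent.H302R3 Pool.Agent.H302R4

section long

variable {α : Type*} [Fintype α] [DecidableEq α] {θ : alternatingGroup α → ℂ}

lemma affineEven_sol (p : ℕ) [NeZero p] : Group.IsSolvable (affineEven p) := by
  refine sol_of_commutators (((MonoidHom.snd _ _).comp (affineEven p).subtype).ker) ?_ ?_
  · intro a b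
    rw [MonoidHom.mem_ker, map_mul, map_mul, map_mul, map_inv, map_inv,
      mul_comm (((MonoidHom.snd _ _).comp (affineEven p).subtype) a), mul_inv_cancel_right,
      mul_inv_cancel]
  · rintro ⟨⟨π, a⟩, h1, h2⟩ ha ⟨⟨ρ, b⟩, h3, h4⟩ hb
    have ha' : a = 1 := ha
    have hb' : b = 1 := hb
    subst ha'
    subst hb'
    simp only at h1 h3
    apply Subtype.ext
    apply Prod.ext
    · ext x
      change π (ρ x) = ρ (π x)
      have e1 := h1 (ρ x) 0
      have e2 := h3 x 0
      have e3 := h3 (π x) 0
      have e4 := h1 x 0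
      simp only [Units.val_one, one_mul, sub_zero] at e1 e2 e3 e4
      linear_combination e1 + e2 - e3 - e4
    · rfl

lemma InW.of_long_prime (hθ : IsSolHeilbronn θ) (hD : HasDS θ) {p : ℕ} [hp : Fact p.Prime]
    (hp5 : 5 ≤ p) (f : ZMod p ↪ α) : InW θ (viaEmbeddingHom f (Equiv.addRight (1 : ZMod p))) := by
  classical
  have hpodd : Odd p := hp.out.odd_of_ne_two (by omega)
  have h2 : (2 : ZMod p) ≠ 0 := by
    intro h
    have : ((2 : ℕ) : ZMod p) = 0 := by exact_mod_cast h
    rw [ZMod.natCast_eq_zero_iff] at this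
    exact absurd (Nat.le_of_dvd (by norm_num) this) (by omega)
  have h3 : (3 : ZMod p) ≠ 0 := by
    intro h
    have : ((3 : ℕ) : ZMod p) = 0 := by exact_mod_cast h
    rw [ZMod.natCast_eq_zero_iff] at this
    exact absurd (Nat.le_of_dvd (by norm_num) this) (by omega)
  let u : (ZMod p)ˣ := Units.mk0 2 h2
  have huu : u * u ≠ 1 := by
    intro h
    have h4 : ((u * u : (ZMod p)ˣ) : ZMod p) = 1 := by rw [h]; rfl
    have h5 : (2 : ZMod p) * 2 = 1 := h4
    apply h3
    linear_combination h5
  obtain ⟨lam, hlam⟩ := CommGroup.exists_apply_ne_one_of_hasEnoughRootsOfUnity (ZMod p)ˣ ℂ huu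
  let φ : affineEven p →* Perm α :=
    (viaEmbeddingHom f).comp ((MonoidHom.fst _ _).comp (affineEven p).subtype)
  let χ : affineEven p →* ℂˣ := lam.comp ((MonoidHom.snd _ _).comp (affineEven p).subtype)
  have hφs : ∀ e, Perm.sign (φ e) = 1 := by
    rintro ⟨⟨π, a⟩, h1, h2⟩
    simp only [φ, MonoidHom.comp_apply, Subgroup.coe_subtype, MonoidHom.coe_fst]
    rw [viaEmb_sign]; exact h2
  let e₀ : affineEven p := ⟨(Units.mulLeft u * Units.mulLeft u, u * u), by
    refine ⟨fun x y => ?_, ?_⟩
    · simp only [Perm.mul_apply, Units.mulLeft_apply, Units.val_mul]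
      ring
    · simp only [Perm.sign_mul]; exact Int.units_mul_self _⟩
  let e₁ : affineEven p := ⟨(Equiv.addRight (1 : ZMod p), 1), by
    refine ⟨fun x y => ?_, ?_⟩
    · simp
    · -- (x ↦ x + 1) has odd order
      have h5 : (Equiv.addRight (1 : ZMod p)) ^ p = 1 := by
        ext x
        have : ∀ k : ℕ, ((Equiv.addRight (1 : ZMod p)) ^ k) x = x + k := by
          intro k
          induction k with
          | zero => simp
          | succ k ih =>
            rw [pow_succ', Perm.mul_apply, ih]
            simp only [Equiv.coe_addRight, Nat.cast_add, Nat.cast_one]; ring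
        rw [this]; simp
      have h6 := congrArg Perm.sign h5
      rw [map_pow, map_one] at h6
      rcases Int.units_eq_one_or (Perm.sign (Equiv.addRight (1 : ZMod p))) with h7 | h7
      · exact h7
      · rw [h7, hpodd.neg_one_pow] at h6
        exact absurd h6 (by decide)⟩
  have key := InW.kernel hθ (affineEven_sol p) φ hφs χ (e₀ := e₀) hlam ?_ e₁
  · exact key
  · rintro ⟨⟨π, a⟩, h1, hs⟩ hχ
    have ha : a ≠ 1 := by
      rintro rfl
      apply hχ
      simp [χ]
    simp only at h1 hs
    -- fixed point
    have ha' : (1 : ZMod p) - a ≠ 0 := by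
      intro h
      apply ha
      rw [← Units.val_eq_one]
      exact (sub_eq_zero.mp h).symm
    have hfix : π (π 0 / (1 - a)) = π 0 / (1 - a) := by
      have h5 := h1 (π 0 / (1 - a)) 0
      rw [sub_zero] at h5
      have h6 : π (π 0 / (1 - a)) = a * (π 0 / (1 - a)) + π 0 := by
        linear_combination h5
      rw [h6]
      field_simp
      ring
    apply InW.of_not_long hθ hD (hφs _)
    intro hcyc
    have hodd := odd_card_of_cycle hcyc (hφs _)
    set g := φ ⟨(π, a), h1, hs⟩ with hg
    have hgf : ∀ x, g (f x) = f (π x) := fun x => viaEmb_apply f π x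
    have hgn : ∀ y, (∀ x, f x ≠ y) → g y = y := fun y hy => viaEmb_notMem f π hy
    have hsub : g.support ⊆ (Finset.univ.erase (π 0 / (1 - a))).map f := by
      intro y hy
      rw [mem_support] at hy
      by_cases hex : ∃ x, f x = y
      · obtain ⟨x, rfl⟩ := hex
        rw [Finset.mem_map' f, Finset.mem_erase]
        refine ⟨?_, Finset.mem_univ _⟩
        intro hx
        apply hy
        rw [hgf, hx, hfix]
      · push Not at hex
        exact absurd (hgn y hex) hy
    have h5 := Finset.card_le_card hsub
    rw [Finset.card_map, Finset.card_erase_of_mem (Finset.mem_univ _), Finset.card_univ,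
      ZMod.card] at h5
    have h6 : p ≤ Fintype.card α := by
      have := Fintype.card_le_of_embedding f
      rwa [ZMod.card] at this
    obtain ⟨k, hk⟩ := hodd
    obtain ⟨l, hl⟩ := hpodd
    omega

end long

end Pool.Agent.H302R5
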