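import Mathlib
import Pool.Agent.H302R5.SymC

/-!
# Weak Heilbronn functions on alternating groups: long cycles of composite length
-/

set_option autoImplicit false

namespace Pool.Agent.H302R5

open Equiv Equiv.Perm Pool.Agent.H302R2 Pool.Agent.H302R3 Pool.Agent.H302R4

section shift

variable {N p : ℕ} (h : p ∣ N)

/-- the permutation `z ↦ z + a (z mod p)` of `ZMod N` -/
def shiftP (j : ZMod p) (a : ZMod p → ZMod N) (ha : ∀ r, ZMod.castHom h (ZMod p) (a r) = j) :
    Perm (ZMod N) where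
  toFun z := z + a (ZMod.castHom h (ZMod p) z)
  invFun z := z - a (ZMod.castHom h (ZMod p) z - j)
  left_inv z := by
    change z + a (ZMod.castHom h (ZMod p) z)
      - a (ZMod.castHom h (ZMod p) (z + a (ZMod.castHom h (ZMod p) z)) - j) = z
    rw [map_add, ha, add_sub_cancel_right, add_sub_cancel_right]
  right_inv z := by
    change z - a (ZMod.castHom h (ZMod p) z - j)
      + a (ZMod.castHom h (ZMod p) (z - a (ZMod.castHom h (ZMod p) z - j))) = z
    rw [map_sub, ha, sub_add_cancel]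

lemma shiftP_apply (j : ZMod p) (a : ZMod p → ZMod N)
    (ha : ∀ r, ZMod.castHom h (ZMod p) (a r) = j) (z : ZMod N) :
    shiftP h j a ha z = z + a (ZMod.castHom h (ZMod p) z) := rfl

/-- the wreath product of cyclic groups acting on `ZMod N` -/
def wreathP : Subgroup (Perm (ZMod N)) where
  carrier := {π | ∃ (j : ZMod p) (a : ZMod p → ZMod N)
    (ha : ∀ r, ZMod.castHom h (ZMod p) (a r) = j), π = shiftP h j a ha}
  mul_mem' := by
    rintro π ρ ⟨j, a, ha, rfl⟩ ⟨l, b, hb, rfl⟩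
    refine ⟨l + j, fun r => b r + a (r + l), fun r => by rw [map_add, ha, hb], ?_⟩
    ext z
    rw [Perm.mul_apply, shiftP_apply, shiftP_apply, shiftP_apply, map_add, hb, add_assoc]
  one_mem' := ⟨0, fun _ => 0, fun _ => map_zero _, by
    ext z; rw [shiftP_apply, add_zero, Perm.one_apply]⟩
  inv_mem' := by
    rintro π ⟨j, a, ha, rfl⟩
    refine ⟨-j, fun r => - a (r - j), fun r => by rw [map_neg, ha], ?_⟩
    rw [inv_eq_iff_mul_eq_one]
    ext z
    rw [Perm.mul_apply, shiftP_apply, shiftP_apply, map_add, map_neg, ha, Perm.one_apply,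
      ← sub_eq_add_neg, ← sub_eq_add_neg, sub_add_cancel]

lemma mem_wreathP (j : ZMod p) (a : ZMod p → ZMod N)
    (ha : ∀ r, ZMod.castHom h (ZMod p) (a r) = j) : shiftP h j a ha ∈ wreathP h :=
  ⟨j, a, ha, rfl⟩

lemma shiftP_pow (j : ZMod p) (a : ZMod p → ZMod N)
    (ha : ∀ r, ZMod.castHom h (ZMod p) (a r) = j) (n : ℕ) (z : ZMod N) :
    ((shiftP h j a ha) ^ n) z
      = z + ∑ i ∈ Finset.range n, a (ZMod.castHom h (ZMod p) z + i * j) := by
  induction n with
  | zero => simp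
  | succ n ih =>
    rw [pow_succ', Perm.mul_apply, ih, shiftP_apply, Finset.sum_range_succ, add_assoc]
    congr 3
    rw [map_add, map_sum]
    simp only [ha, Finset.sum_const, Finset.card_range, nsmul_eq_mul]

lemma shiftP_pow_zero (a : ZMod p → ZMod N)
    (ha : ∀ r, ZMod.castHom h (ZMod p) (a r) = 0) (n : ℕ) (z : ZMod N) :
    ((shiftP h 0 a ha) ^ n) z = z + n * a (ZMod.castHom h (ZMod p) z) := by
  rw [shiftP_pow]
  simp only [mul_zero, add_zero, Finset.sum_const, Finset.card_range, nsmul_eq_mul]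

lemma shiftP_pow_p (j : ZMod p) (a : ZMod p → ZMod N)
    (ha : ∀ r, ZMod.castHom h (ZMod p) (a r) = j) :
    ∃ (b : ZMod p → ZMod N) (hb : ∀ r, ZMod.castHom h (ZMod p) (b r) = 0),
      (shiftP h j a ha) ^ p = shiftP h 0 b hb := by
  refine ⟨fun r => ∑ i ∈ Finset.range p, a (r + i * j), fun r => ?_, ?_⟩
  · rw [map_sum]
    simp only [ha, Finset.sum_const, Finset.card_range, nsmul_eq_mul]
    rw [ZMod.natCast_self, zero_mul]
  · ext z
    rw [shiftP_pow, shiftP_apply]

lemma wreathP_pow {π : Perm (ZMod N)} (hπ : π ∈ wreathP h) : π ^ (p * N) = 1 := by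
  obtain ⟨j, a, ha, rfl⟩ := hπ
  obtain ⟨b, hb, hab⟩ := shiftP_pow_p h j a ha
  rw [pow_mul, hab]
  ext z
  rw [shiftP_pow_zero, ZMod.natCast_self, zero_mul, add_zero, Perm.one_apply]

end shift

section factor

lemma a1_sum {N p : ℕ} [Fact p.Prime] (a₁ : ZMod p → ZMod N)
    (h3 : ∀ s : ZMod p, a₁ s = 1 + (if s = -1 then -(p : ZMod N) else 0)) (x : ZMod p) :
    ∑ i ∈ Finset.range p, a₁ (x + i * 1) = 0 := by
  have h1 : ∑ i ∈ Finset.range p, a₁ (x + i * 1) = ∑ s : ZMod p, a₁ s := by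
    have h2 : ∑ i ∈ Finset.range p, a₁ (x + i * 1) = ∑ s : ZMod p, a₁ (x + s) := by
      refine Finset.sum_bij (fun i _ => (i : ZMod p)) ?_ ?_ ?_ ?_
      · intro i _; exact Finset.mem_univ _
      · intro i hi j hj hij
        rw [ZMod.natCast_eq_natCast_iff'] at hij
        rwa [Nat.mod_eq_of_lt (Finset.mem_range.mp hi),
          Nat.mod_eq_of_lt (Finset.mem_range.mp hj)] at hij
      · intro s _
        exact ⟨s.val, Finset.mem_range.mpr (ZMod.val_lt s), ZMod.natCast_zmod_val s⟩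
      · intro i _; rw [mul_one]
    rw [h2]
    exact Equiv.sum_comp (Equiv.addLeft x) a₁
  rw [h1, Finset.sum_congr rfl (fun s _ => h3 s), Finset.sum_add_distrib, Finset.sum_ite_eq',
    if_pos (Finset.mem_univ _), Finset.sum_const, Finset.card_univ, ZMod.card, nsmul_eq_mul,
    mul_one, add_neg_cancel]

lemma exists_factor {N p M : ℕ} (hp : p.Prime) (h : p ∣ N) (hNe : N = M * p) (hpk : p ∣ M) :
    ∃ β τ : Perm (ZMod N), β ∈ wreathP h ∧ τ ∈ wreathP h ∧ β * τ = Equiv.addRight (1 : ZMod N) ∧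
      β ^ M = 1 ∧ τ ^ M = 1 := by
  classical
  have : Fact p.Prime := ⟨hp⟩
  obtain ⟨a₁, ha₁'⟩ : ∃ a₁ : ZMod p → ZMod N,
      ∀ s : ZMod p, a₁ s = 1 + (if s = -1 then -(p : ZMod N) else 0) := ⟨_, fun s => rfl⟩
  obtain ⟨a₂, ha₂'⟩ : ∃ a₂ : ZMod p → ZMod N,
      ∀ s : ZMod p, a₂ s = if s = 0 then (p : ZMod N) else 0 := ⟨_, fun s => rfl⟩
  have ha₁ : ∀ r, ZMod.castHom h (ZMod p) (a₁ r) = 1 := by
    intro r
    rw [ha₁']
    by_cases hr : r = -1
    · rw [if_pos hr, map_add, map_one, map_neg, map_natCast, ZMod.natCast_self, neg_zero, add_zero]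
    · rw [if_neg hr, add_zero, map_one]
  have ha₂ : ∀ r, ZMod.castHom h (ZMod p) (a₂ r) = 0 := by
    intro r
    rw [ha₂']
    by_cases hr : r = 0
    · rw [if_pos hr, map_natCast, ZMod.natCast_self]
    · rw [if_neg hr, map_zero]
  have hτp : (shiftP h 1 a₁ ha₁) ^ p = 1 := by
    ext z
    rw [shiftP_pow, Perm.one_apply, a1_sum a₁ ha₁', add_zero]
  refine ⟨shiftP h 0 a₂ ha₂, shiftP h 1 a₁ ha₁, mem_wreathP h _ _ _, mem_wreathP h _ _ _,
    ?_, ?_, ?_⟩
  · ext z
    rw [Perm.mul_apply, shiftP_apply, shiftP_apply, map_add, ha₁, Equiv.coe_addRight, ha₁', ha₂']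
    by_cases hz : ZMod.castHom h (ZMod p) z = -1
    · rw [if_pos hz, if_pos (by rw [hz, neg_add_cancel]), add_assoc, add_assoc, neg_add_cancel,
        add_zero]
    · rw [if_neg hz, if_neg (fun h => hz (eq_neg_of_add_eq_zero_left h)), add_zero, add_zero]
  · ext z
    rw [shiftP_pow_zero, Perm.one_apply, ha₂']
    by_cases hz : ZMod.castHom h (ZMod p) z = 0
    · rw [if_pos hz, ← Nat.cast_mul, ← hNe, ZMod.natCast_self, add_zero]
    · rw [if_neg hz, mul_zero, add_zero]
  · obtain ⟨c, rfl⟩ := hpk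
    rw [pow_mul, hτp, one_pow]

end factor

section long

variable {α : Type*} [Fintype α] [DecidableEq α] {θ : alternatingGroup α → ℂ}

/-- an even permutation of small order is not a long cycle -/
lemma InW.of_pow (hθ : IsSolHeilbronn θ) (hD : HasDS θ) {g : Perm α} (hg : Perm.sign g = 1)
    {M : ℕ} (hM : 0 < M) (hgM : g ^ M = 1) (hMα : M + 2 ≤ Fintype.card α) : InW θ g := by
  apply InW.of_not_long hθ hD hg
  intro hcyc
  have h1 : orderOf g = g.support.card := hcyc.orderOf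
  have h2 : orderOf g ≤ M := orderOf_le_of_pow_eq_one hM hgM
  omega

lemma InW.pow (hθ : IsSolHeilbronn θ) {g : Perm α} (hg : InW θ g) (k : ℕ) : InW θ (g ^ k) := by
  induction k with
  | zero => rw [pow_zero]; exact InW.one
  | succ k ih =>
    rw [pow_succ]
    exact ih.mul hθ hg ((Commute.refl g).pow_left k)

lemma InW.inv (hθ : IsSolHeilbronn θ) {g : Perm α} (hg : InW θ g) : InW θ g⁻¹ := by
  have h1 : g⁻¹ = g ^ (orderOf g - 1) := by
    rw [inv_eq_iff_mul_eq_one, ← pow_succ', Nat.sub_add_cancel (orderOf_pos g),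
      pow_orderOf_eq_one]
  rw [h1]
  exact hg.pow hθ _

lemma InW.zpow (hθ : IsSolHeilbronn θ) {g : Perm α} (hg : InW θ g) (k : ℤ) : InW θ (g ^ k) := by
  obtain ⟨n, rfl | rfl⟩ := k.eq_nat_or_neg
  · rw [zpow_natCast]; exact hg.pow hθ n
  · rw [zpow_neg, zpow_natCast]; exact (hg.pow hθ n).inv hθ

lemma addRight_pow {N : ℕ} (k : ℕ) (x : ZMod N) :
    ((Equiv.addRight (1 : ZMod N)) ^ k) x = x + k := by
  induction k with
  | zero => simp
  | succ k ih =>
    rw [pow_succ', Perm.mul_apply, ih]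
    simp only [Equiv.coe_addRight, Nat.cast_add, Nat.cast_one]; ring

lemma addRight_pow_self {N : ℕ} : (Equiv.addRight (1 : ZMod N)) ^ N = 1 := by
  ext x
  rw [addRight_pow, ZMod.natCast_self, add_zero, Perm.one_apply]

lemma InW.of_long_coprime (hθ : IsSolHeilbronn θ) (hD : HasDS θ) {N a b : ℕ} [NeZero N]
    (hN : N = a * b) (ha : 3 ≤ a) (hb : 3 ≤ b) (hab : Nat.Coprime a b) (hodd : Odd N)
    (f : ZMod N ↪ α) :
    InW θ (viaEmbeddingHom f (Equiv.addRight (1 : ZMod N))) := by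
  set g := viaEmbeddingHom f (Equiv.addRight (1 : ZMod N)) with hg
  have hg1 : g ^ (a * b) = 1 := by rw [← hN, hg, ← map_pow, addRight_pow_self, map_one]
  have hgs : Perm.sign g = 1 := by
    rw [hg, viaEmb_sign]
    exact sign_odd_pow hodd addRight_pow_self
  have hcard : a * b ≤ Fintype.card α := by
    have := Fintype.card_le_of_embedding f
    rwa [ZMod.card, hN] at this
  have h1 : InW θ (g ^ a) := by
    refine InW.of_pow hθ hD (by rw [map_pow, hgs, one_pow]) (M := b) (by omega)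
      (by rw [← pow_mul, hg1]) (by nlinarith)
  have h2 : InW θ (g ^ b) := by
    refine InW.of_pow hθ hD (by rw [map_pow, hgs, one_pow]) (M := a) (by omega)
      (by rw [← pow_mul, mul_comm, hg1]) (by nlinarith)
  obtain ⟨u, v, huv⟩ := Nat.isCoprime_iff_coprime.mpr hab
  have h3 : g = (g ^ a) ^ u * (g ^ b) ^ v := by
    rw [← zpow_natCast, ← zpow_natCast, ← zpow_mul, ← zpow_mul, ← zpow_add, mul_comm (a : ℤ),
      mul_comm (b : ℤ), huv, zpow_one]
  rw [h3]
  refine (h1.zpow hθ u).mul hθ (h2.zpow hθ v) ?_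
  exact (((Commute.refl g).pow_pow a b).zpow_zpow u v).eq

/-- the `p`-group embedded in the alternating group -/
noncomputable def wreathHom {N p : ℕ} [NeZero N] (h : p ∣ N) (hN : Odd (p * N)) (f : ZMod N ↪ α) :
    wreathP h →* alternatingGroup α :=
  ((viaEmbeddingHom f).comp (wreathP h).subtype).codRestrict (alternatingGroup α) (fun π => by
    rw [mem_alternatingGroup, MonoidHom.comp_apply, viaEmb_sign]
    exact sign_odd_pow hN (wreathP_pow h π.2))

lemma wreathHom_coe {N p : ℕ} [NeZero N] (h : p ∣ N) (hN : Odd (p * N)) (f : ZMod N ↪ α)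
    (π : wreathP h) : (wreathHom h hN f π : Perm α) = viaEmbeddingHom f (π : Perm (ZMod N)) := rfl

lemma InW.of_wreath (hθ : IsSolHeilbronn θ) {N p : ℕ} [NeZero N] (hp : p.Prime) (h : p ∣ N)
    (hN : Odd (p * N)) (f : ZMod N ↪ α) (hWp : IsPGroup p (wreathP h)) {β τ : Perm (ZMod N)}
    (hβW : β ∈ wreathP h) (hτW : τ ∈ wreathP h)
    (hβ : InW θ (viaEmbeddingHom f β)) (hτ : InW θ (viaEmbeddingHom f τ)) :
    InW θ (viaEmbeddingHom f (β * τ)) := by
  have : Fact p.Prime := ⟨hp⟩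
  have hH := hθ.comp_sol (pgroup_sol hp hWp) (wreathHom h hN f)
  obtain ⟨h1, h2⟩ := hβ
  obtain ⟨h3, h4⟩ := hτ
  have e1 : wreathHom h hN f ⟨β, hβW⟩ = ⟨viaEmbeddingHom f β, h1⟩ := Subtype.ext rfl
  have e2 : wreathHom h hN f ⟨τ, hτW⟩ = ⟨viaEmbeddingHom f τ, h3⟩ := Subtype.ext rfl
  have hB : θ (wreathHom h hN f ⟨β, hβW⟩) = θ (wreathHom h hN f 1) := by
    rw [map_one, e1, h2]
  have hT : θ (wreathHom h hN f ⟨τ, hτW⟩) = θ (wreathHom h hN f 1) := by
    rw [map_one, e2, h4]
  have hfin := hH.pgroup_mul (hWp.to_subgroup ⊤) (Subgroup.mem_top _) (Subgroup.mem_top _) hB hT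
  simp only [map_one] at hfin
  refine ⟨?_, ?_⟩
  · rw [map_mul]; exact mul_mem h1 h3
  · rw [← hfin]
    congr 1

lemma InW.of_long_power (hθ : IsSolHeilbronn θ) (hD : HasDS θ) {N p k : ℕ} (hp : p.Prime)
    (hp2 : p ≠ 2) (hk : 2 ≤ k) [NeZero N] (hN : N = p ^ k) (f : ZMod N ↪ α) :
    InW θ (viaEmbeddingHom f (Equiv.addRight (1 : ZMod N))) := by
  have hpodd : Odd p := hp.odd_of_ne_two hp2
  have h : p ∣ N := hN ▸ dvd_pow_self p (by omega)
  have hNe : N = p ^ (k - 1) * p := by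
    rw [hN, ← pow_succ, Nat.sub_add_cancel (by omega)]
  have hoddN : Odd (p * N) := hpodd.mul (hN ▸ hpodd.pow)
  have hcard : N ≤ Fintype.card α := by
    have := Fintype.card_le_of_embedding f
    rwa [ZMod.card] at this
  have h3 : 3 ≤ p := by
    have := hp.two_le
    omega
  have h1 : 1 ≤ p ^ (k - 1) := Nat.one_le_pow _ _ hp.pos
  have hsmall : p ^ (k - 1) + 2 ≤ Fintype.card α := by nlinarith
  have hpk : p ∣ p ^ (k - 1) := dvd_pow_self p (by omega)
  obtain ⟨β, τ, hβW, hτW, hmul, hβM, hτM⟩ := exists_factor hp h hNe hpk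
  have hin : ∀ π : Perm (ZMod N), π ^ (p ^ (k - 1)) = 1 → InW θ (viaEmbeddingHom f π) := by
    intro π hπ
    refine InW.of_pow hθ hD ?_ h1 (by rw [← map_pow, hπ, map_one]) hsmall
    rw [viaEmb_sign]
    exact sign_odd_pow hpodd.pow hπ
  have hWp : IsPGroup p (wreathP h) := by
    intro π
    refine ⟨k + 1, Subtype.ext ?_⟩
    rw [SubmonoidClass.coe_pow, OneMemClass.coe_one, pow_succ', ← hN]
    exact wreathP_pow h π.2
  rw [← hmul]
  exact InW.of_wreath hθ hp h hoddN f hWp hβW hτW (hin β hβM) (hin τ hτM)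

/-- All even permutations are in the kernel once the products of two transpositions are. -/
theorem InW.all (hθ : IsSolHeilbronn θ) (hD : HasDS θ) (hcard : 5 ≤ Fintype.card α)
    {g : Perm α} (hg : Perm.sign g = 1) : InW θ g := by
  classical
  by_cases hlong : g.IsCycle → g.support.card + 2 ≤ Fintype.card α
  · exact InW.of_not_long hθ hD hg hlong
  push Not at hlong
  obtain ⟨hcyc, hlen⟩ := hlong
  have hodd := odd_card_of_cycle hcyc hg
  obtain ⟨f, hf, hsupp⟩ := exists_param hcyc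
  have hN5 : 5 ≤ g.support.card := by
    obtain ⟨k, hk⟩ := hodd
    omega
  have : NeZero g.support.card := ⟨by omega⟩
  have hgf : g = viaEmbeddingHom f (Equiv.addRight (1 : ZMod g.support.card)) := by
    ext y
    by_cases hy : y ∈ g.support
    · obtain ⟨k, rfl⟩ := (hsupp y).mp hy
      rw [hf, viaEmb_apply]; rfl
    · rw [viaEmb_notMem f _ (fun x hx => hy ((hsupp y).mpr ⟨x, hx⟩))]
      simpa using hy
  have hgoal : ∀ (N : ℕ) [NeZero N] (f : ZMod N ↪ α), Odd N → 5 ≤ N →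
      InW θ (viaEmbeddingHom f (Equiv.addRight (1 : ZMod N))) := by
    intro N _ f hNodd hN5
    have hpp : N.minFac.Prime := Nat.minFac_prime (by omega)
    set p := N.minFac with hp
    have hpN : p ∣ N := Nat.minFac_dvd _
    have hp2 : p ≠ 2 := by
      intro h
      have : 2 ∣ N := h ▸ hpN
      obtain ⟨k, hk⟩ := hNodd
      omega
    obtain ⟨k, m, hm, hkm⟩ := Nat.exists_eq_pow_mul_and_not_dvd (n := N) (by omega) p
      hpp.ne_one
    have hk0 : k ≠ 0 := by
      rintro rfl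
      rw [pow_zero, one_mul] at hkm
      exact hm (hkm ▸ hpN)
    by_cases hm1 : m = 1
    · subst hm1
      rw [mul_one] at hkm
      by_cases hk1 : k = 1
      · subst hk1
        rw [pow_one] at hkm
        have : Fact N.Prime := ⟨by rw [hkm]; exact hpp⟩
        exact InW.of_long_prime hθ hD hN5 f
      · exact InW.of_long_power hθ hD hpp hp2 (by omega) hkm f
    · have hmodd : Odd m := by
        rw [hkm] at hNodd
        exact (Nat.odd_mul.mp hNodd).2
      have hm3 : 3 ≤ m := by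
        obtain ⟨l, hl⟩ := hmodd
        omega
      have hpk3 : 3 ≤ p ^ k := by
        have h3 : 3 ≤ p := by
          have := hpp.two_le
          omega
        calc 3 ≤ p := h3
          _ = p ^ 1 := (pow_one p).symm
          _ ≤ p ^ k := Nat.pow_le_pow_right (by omega) (by omega)
      have hcop : Nat.Coprime (p ^ k) m :=
        Nat.Coprime.pow_left k ((Nat.Prime.coprime_iff_not_dvd hpp).mpr hm)
      exact InW.of_long_coprime hθ hD hkm hpk3 hm3 hcop hNodd f
  have hfin := hgoal _ f hodd hN5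
  rwa [← hgf] at hfin

end long

end Pool.Agent.H302R5
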