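import Mathlib
import Pool.Agent.H302R5.SymC2

/-!
# Weak Heilbronn functions on alternating groups: the degree bound
-/

set_option autoImplicit false

namespace Pool.Agent.H302R5

open Equiv Equiv.Perm Pool.Agent.H302R2 Pool.Agent.H302R3 Pool.Agent.H302R4

section main

variable {α : Type*} [Fintype α] [DecidableEq α] {θ : alternatingGroup α → ℂ}
variable {F : Type} [Field F] [Fintype F] [DecidableEq F] {m : ℕ}

lemma blockHom_mono' (hθ : IsSolHeilbronn θ) (hF : 4 ≤ Fintype.card F) (hFe : Even (Fintype.card F))
    (f : Fin m × F ↪ α) (u : Fin m → Fˣ) (σ : Perm (Fin m)) (a : Fin m → F) :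
    θ (blockHom hF f (Multiplicative.ofAdd (fun i => ((u i)⁻¹ : Fˣ) * a (σ i))))
      = θ (blockHom hF f (Multiplicative.ofAdd a)) := by
  have h1 : viaEmbeddingHom f (mono u σ) ∈ alternatingGroup α := by
    rw [mem_alternatingGroup, viaEmb_sign, sign_mono hFe]
  have h2 := hθ.conj (blockHom hF f (Multiplicative.ofAdd (fun i => ((u i)⁻¹ : Fˣ) * a (σ i))))
    ⟨_, h1⟩
  rw [← h2]
  congr 1
  apply Subtype.ext
  change viaEmbeddingHom f (mono u σ) * viaEmbeddingHom f (trans m F _) *
    (viaEmbeddingHom f (mono u σ))⁻¹ = viaEmbeddingHom f (trans m F _)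
  rw [← map_inv, ← map_mul, ← map_mul, mono_conj]

/-- The degree bound forces all the block translations into the kernel. -/
theorem block_kernel' (hθ : IsSolHeilbronn θ) (hF : 4 ≤ Fintype.card F)
    (hFe : Even (Fintype.card F)) (f : Fin m × F ↪ α) {r : ℕ} (hr : θ 1 = r)
    (hlt : r < (Fintype.card F - 1) * m) (a : Fin m → F) :
    θ (blockHom hF f (Multiplicative.ofAdd a)) = θ 1 := by
  classical
  set t : (Fin m → F) → ℂ := fun a => θ (blockHom hF f (Multiplicative.ofAdd a)) with ht
  -- additive character
  set e : AddChar F ℂ := AddChar.FiniteField.primitiveChar_to_Complex F with he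
  have heprim : e.IsPrimitive := AddChar.FiniteField.primitiveChar_to_Complex_isPrimitive F
  let χ : (Fin m → F) → Multiplicative (Fin m → F) →* ℂˣ := fun y =>
    MonoidHom.toHomUnits
      { toFun := fun a => e (∑ i, y i * Multiplicative.toAdd a i)
        map_one' := by simp
        map_mul' := fun a b => by
          rw [← AddChar.map_add_eq_mul, ← Finset.sum_add_distrib]
          congr 1
          refine Finset.sum_congr rfl fun i _ => ?_
          rw [toAdd_mul, Pi.add_apply, mul_add] }
  have hχ : ∀ y a, ((χ y (Multiplicative.ofAdd a) : ℂˣ) : ℂ) = e (∑ i, y i * a i) :=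
    fun y a => rfl
  have hsolE : Group.IsSolvable (Multiplicative (Fin m → F)) := sol_of_comm (fun a b => mul_comm a b)
  have hm := fun y => hθ.mult_hom hsolE (blockHom hF f) (χ y)
  choose n hn using hm
  have hcardV : (Nat.card (Multiplicative (Fin m → F)) : ℂ) = (Fintype.card F : ℂ) ^ m := by
    rw [Nat.card_eq_fintype_card, Fintype.card_multiplicative, Fintype.card_fun, Fintype.card_fin]
    push_cast; rfl
  have hn' : ∀ y, ∑ a : Fin m → F, t a * e (-∑ i, y i * a i) = n y * (Fintype.card F : ℂ) ^ m := by
    intro y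
    rw [← hcardV, ← hn y, ← Multiplicative.ofAdd.sum_comp]
    refine Finset.sum_congr rfl fun a _ => ?_
    rw [Units.val_inv_eq_inv_val, hχ, AddChar.map_neg_eq_inv]
  have hq : ((Fintype.card F : ℂ) ^ m) ≠ 0 := pow_ne_zero _ (by
    exact_mod_cast Fintype.card_ne_zero)
  -- invariance of n
  have hinv : ∀ y z : Fin m → F, wt y = wt z → n y = n z := by
    intro y z hyz
    obtain ⟨u, σ, huσ⟩ := exists_monomial hyz
    have h1 : ∑ a : Fin m → F, t a * e (-∑ i, y i * a i)
        = ∑ a : Fin m → F, t a * e (-∑ i, z i * a i) := by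
      -- substitution a ↦ (i ↦ (u i)⁻¹ * a (σ i)) in the second sum
      let T : (Fin m → F) ≃ (Fin m → F) :=
        { toFun := fun a i => ((u i)⁻¹ : Fˣ) * a (σ i)
          invFun := fun a i => (u (σ⁻¹ i) : F) * a (σ⁻¹ i)
          left_inv := fun a => by
            ext i
            simp only [perm_mul_inv_apply, Units.mul_inv_cancel_left]
          right_inv := fun a => by
            ext i
            simp only [perm_inv_mul_apply, Units.inv_mul_cancel_left] }
      rw [← T.sum_comp (fun a => t a * e (-∑ i, z i * a i))]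
      refine Finset.sum_congr rfl fun a _ => ?_
      have h2 : t (T a) = t a := blockHom_mono' hθ hF hFe f u σ a
      have h3 : ∑ i, z i * (T a) i = ∑ i, y i * a i := by
        rw [← Equiv.sum_comp σ (fun i => y i * a i)]
        refine Finset.sum_congr rfl fun i _ => ?_
        change z i * (((u i)⁻¹ : Fˣ) * a (σ i)) = _
        rw [huσ i]
        have : (u i : F) * (((u i)⁻¹ : Fˣ) : F) = 1 := Units.mul_inv _
        calc (u i : F) * y (σ i) * ((((u i)⁻¹ : Fˣ) : F) * a (σ i))
            = ((u i : F) * (((u i)⁻¹ : Fˣ) : F)) * (y (σ i) * a (σ i)) := by ring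
          _ = y (σ i) * a (σ i) := by rw [this, one_mul]
      rw [h2, h3]
    rw [hn', hn'] at h1
    exact_mod_cast mul_right_cancel₀ hq h1
  -- total multiplicity
  have htot : ∑ y, n y = r := by
    have h1 : ∑ y : Fin m → F, ∑ a : Fin m → F, t a * e (-∑ i, y i * a i)
        = (∑ y, (n y : ℂ)) * (Fintype.card F : ℂ) ^ m := by
      rw [Finset.sum_congr rfl (fun y _ => hn' y), Finset.sum_mul]
    rw [Finset.sum_comm] at h1
    have h2 : ∀ a : Fin m → F, ∑ y : Fin m → F, t a * e (-∑ i, y i * a i)
        = if a = 0 then t 0 * (Fintype.card F : ℂ) ^ m else 0 := by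
      intro a
      rw [← Finset.mul_sum]
      have h3 : ∀ y : Fin m → F, e (-∑ i, y i * a i) = ∏ i, e (y i * (-a i)) := by
        intro y
        rw [← Finset.sum_neg_distrib]
        rw [addChar_sum]
        refine Finset.prod_congr rfl fun i _ => by rw [mul_neg]
      rw [Finset.sum_congr rfl (fun y _ => h3 y)]
      have h4 := Finset.prod_univ_sum (fun _ : Fin m => (Finset.univ : Finset F))
        (fun i x => e (x * (-a i)))
      rw [Fintype.piFinset_univ] at h4
      rw [← h4]
      by_cases ha : a = 0
      · subst ha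
        simp
      · rw [if_neg ha]
        obtain ⟨i, hi⟩ := Function.ne_iff.mp ha
        have h5 : ∑ x : F, e (x * (-a i)) = 0 := by
          rw [AddChar.sum_mulShift _ heprim, if_neg (by simpa using hi)]
          simp
        rw [Finset.prod_eq_zero (Finset.mem_univ i) h5, mul_zero]
    rw [Finset.sum_congr rfl (fun a _ => h2 a)] at h1
    simp only [Finset.sum_ite_eq', Finset.mem_univ, if_true] at h1
    have h6 := mul_right_cancel₀ hq h1
    have h7 : t 0 = r := by
      rw [← hr, ht]
      simp only [ofAdd_zero, map_one]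
    rw [h7] at h6
    exact_mod_cast h6.symm
  -- all nontrivial multiplicities vanish
  have hzero : ∀ y : Fin m → F, y ≠ 0 → n y = 0 := by
    intro y hy
    by_contra hcon
    have hwt1 : 1 ≤ wt y := by
      obtain ⟨i, hi⟩ := Function.ne_iff.mp hy
      rw [wt, Nat.one_le_iff_ne_zero, Finset.card_ne_zero]
      exact ⟨i, by simpa using hi⟩
    have hwtm : wt y ≤ m := by
      rw [wt]
      exact (Finset.card_filter_le _ _).trans (by simp)
    have h1 := card_wt_ge (F := F) (by omega) hwt1 hwtm
    have h2 : (Finset.univ.filter fun z : Fin m → F => wt z = wt y).card ≤ ∑ z, n z := by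
      calc (Finset.univ.filter fun z : Fin m → F => wt z = wt y).card
          = ∑ z ∈ Finset.univ.filter (fun z : Fin m → F => wt z = wt y), 1 := by simp
        _ ≤ ∑ z ∈ Finset.univ.filter (fun z : Fin m → F => wt z = wt y), n z := by
            refine Finset.sum_le_sum fun z hz => ?_
            have := hinv y z (Finset.mem_filter.mp hz).2.symm
            omega
        _ ≤ ∑ z, n z := Finset.sum_le_sum_of_subset (Finset.filter_subset _ _)
    rw [htot] at h2
    omega
  -- conclusion
  have hn0 : (n 0 : ℂ) = r := by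
    have : ∑ y, n y = n 0 := Finset.sum_eq_single 0 (fun y _ hy => hzero y hy) (by simp)
    rw [htot] at this
    exact_mod_cast this.symm
  have hsum := hn' 0
  simp only [Pi.zero_apply, zero_mul, Finset.sum_const_zero, neg_zero, AddChar.map_zero_eq_one,
    mul_one] at hsum
  rw [hn0] at hsum
  have hnn : ∀ b ∈ (Finset.univ : Finset (Fin m → F)), (0 : ℝ) ≤ r - (t b).re := by
    intro b _
    have := (Complex.re_le_norm _).trans (hθ.norm_le (blockHom hF f (Multiplicative.ofAdd b)))
    rw [hr, Complex.natCast_re] at this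
    simp only [ht]; linarith
  have hsum0 : ∑ b : Fin m → F, ((r : ℝ) - (t b).re) = 0 := by
    have h1 := congrArg Complex.re hsum
    rw [Complex.re_sum] at h1
    rw [Finset.sum_sub_distrib, h1, Finset.sum_const, Finset.card_univ, Fintype.card_fun,
      Fintype.card_fin, nsmul_eq_mul]
    have : ((r : ℂ) * (Fintype.card F : ℂ) ^ m).re = r * (Fintype.card F : ℝ) ^ m := by
      have h8 : ((r : ℂ) * (Fintype.card F : ℂ) ^ m) = ((r * (Fintype.card F : ℝ) ^ m : ℝ) : ℂ) := by
        push_cast; rfl
      rw [h8, Complex.ofReal_re]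
    rw [this]
    push_cast; ring
  have h5 := (Finset.sum_eq_zero_iff_of_nonneg hnn).mp hsum0 a (Finset.mem_univ _)
  apply hθ.eq_deg_of_re
  rw [hr, Complex.natCast_re]
  simp only [ht] at h5
  linarith

end main

end Pool.Agent.H302R5
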