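import Mathlib
import Pool.Agent.H302R5.SymD

/-!
# Weak Heilbronn functions of small degree on alternating and symmetric groups
-/

set_option autoImplicit false

namespace Pool.Agent.H302R5

open Equiv Equiv.Perm Pool.Agent.H302R2 Pool.Agent.H302R3 Pool.Agent.H302R4

theorem alt_core' {n k : ℕ} (hn : 5 ≤ n) (hk : 2 ≤ k) {θ : alternatingGroup (Fin n) → ℂ}
    (hθ : IsSolHeilbronn θ) {r : ℕ} (hr : θ 1 = r) (hlt : r < (2 ^ k - 1) * (n / 2 ^ k))
    (g : alternatingGroup (Fin n)) : θ g = θ 1 := by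
  classical
  set m := n / 2 ^ k with hm
  have hmpos : 0 < m := by
    rcases Nat.eq_zero_or_pos m with h | h
    · rw [h, mul_zero] at hlt; omega
    · exact h
  have : NeZero m := ⟨hmpos.ne'⟩
  have : Fact (Nat.Prime 2) := ⟨Nat.prime_two⟩
  let F := GaloisField 2 k
  have : Fintype F := Fintype.ofFinite F
  have hcardF : Fintype.card F = 2 ^ k := by
    rw [← Nat.card_eq_fintype_card]; exact GaloisField.card 2 k (by omega)
  have h4 : 4 ≤ Fintype.card F := by
    rw [hcardF]
    calc 4 = 2 ^ 2 := by norm_num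
      _ ≤ 2 ^ k := Nat.pow_le_pow_right (by norm_num) hk
  have heven : Even (Fintype.card F) := by
    rw [hcardF]; exact (Nat.even_pow.mpr ⟨even_two, by omega⟩)
  have hemb : Nonempty (Fin m × F ↪ Fin n) := by
    apply Function.Embedding.nonempty_of_card_le
    rw [Fintype.card_prod, Fintype.card_fin, Fintype.card_fin, hcardF, hm]
    exact Nat.div_mul_le_self n (2 ^ k)
  obtain ⟨f⟩ := hemb
  have hblock := block_kernel' (F := F) (m := m) hθ h4 heven f hr (by rw [hcardF]; exact hlt)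
  -- the involution
  let a : Fin m → F := Pi.single 0 1
  set x : Perm (Fin n) := viaEmbeddingHom f (trans m F (Multiplicative.ofAdd a)) with hx
  have hxK : InW θ x := ⟨(blockHom h4 f (Multiplicative.ofAdd a)).2, hblock a⟩
  have hx2 : x * x = 1 := by
    rw [hx, ← map_mul, ← map_mul, ← ofAdd_add]
    have : a + a = 0 := by
      ext i
      simp only [Pi.add_apply, Pi.zero_apply]
      exact CharTwo.add_self_eq_zero _
    rw [this, ofAdd_zero, map_one, map_one]
  have hx1 : x ≠ 1 := by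
    intro h
    have h1 : trans m F (Multiplicative.ofAdd a) = 1 := by
      apply viaEmbeddingHom_injective f
      rw [map_one]; exact h
    have h2 := congrArg (fun π : Perm (Fin m × F) => π (0, 0)) h1
    simp [Pool.Agent.H302R2.trans, a] at h2
  have hD : HasDS θ := by
    intro a b c d hab hac had hbc hbd hcd
    exact hxK.double_swap hθ hx2 hx1 hab hac had hbc hbd hcd
  obtain ⟨h1, h2⟩ := InW.all hθ hD (by rw [Fintype.card_fin]; exact hn)
    (g := (g : Perm (Fin n))) (mem_alternatingGroup.mp g.2)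
  exact h2

/-- Values on an index two decomposition, from a Heilbronn function on a subgroup. -/
lemma ab_of_sign {E : Type*} [Group E] [Finite E] {θ : E → ℂ} (hθ : IsHeilbronn θ)
    (χ : E →* ℤˣ) {e₀ : E} (he₀ : χ e₀ = -1) {r c : ℂ} (h1 : ∀ e, χ e = 1 → θ e = r)
    (h2 : ∀ e, χ e = -1 → θ e = c) : ∃ a b : ℕ, (a : ℂ) + b = r ∧ (a : ℂ) - b = c := by
  classical
  have : Fintype E := Fintype.ofFinite E
  obtain ⟨a, ha⟩ := hθ.mult_hom (MonoidHom.id E) 1
  obtain ⟨b, hb⟩ := hθ.mult_hom (MonoidHom.id E) (signToC.comp χ)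
  simp only [MonoidHom.id_apply, MonoidHom.one_apply, inv_one, Units.val_one, mul_one] at ha
  have hsg : ∀ g : E, ((((signToC.comp χ) g)⁻¹ : ℂˣ) : ℂ) = ((χ g : ℤ) : ℂ) := by
    intro g
    rw [MonoidHom.comp_apply]
    rcases Int.units_eq_one_or (χ g) with h | h
    · rw [h]; simp
    · rw [h]; simp [signToC]
  simp only [MonoidHom.id_apply, hsg] at hb
  have hN : (Nat.card E : ℂ) ≠ 0 := by exact_mod_cast Nat.card_pos.ne'
  have hsum0 : ∑ g : E, ((χ g : ℤ) : ℂ) = 0 := by
    have h1 : ∑ g : E, ((χ g : ℤ) : ℂ) = ∑ g : E, ((χ (g * e₀) : ℤ) : ℂ) :=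
      (Equiv.sum_comp (Equiv.mulRight e₀) (fun g => ((χ g : ℤ) : ℂ))).symm
    have h2 : ∑ g : E, ((χ (g * e₀) : ℤ) : ℂ) = - ∑ g : E, ((χ g : ℤ) : ℂ) := by
      rw [← Finset.sum_neg_distrib]
      refine Finset.sum_congr rfl fun g _ => ?_
      rw [map_mul, he₀]; simp
    rw [h2] at h1
    linear_combination h1 / 2
  refine ⟨a, b, ?_, ?_⟩
  · apply mul_right_cancel₀ hN
    rw [add_mul, ← ha, ← hb, ← Finset.sum_add_distrib]
    have : ∀ g : E, θ g + θ g * ((χ g : ℤ) : ℂ) = r + r * ((χ g : ℤ) : ℂ) := by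
      intro g
      rcases Int.units_eq_one_or (χ g) with h | h
      · rw [h1 g h]
      · rw [h]; simp
    rw [Finset.sum_congr rfl (fun g _ => this g), Finset.sum_add_distrib, ← Finset.mul_sum, hsum0,
      Finset.sum_const, Finset.card_univ, nsmul_eq_mul, Nat.card_eq_fintype_card]
    ring
  · apply mul_right_cancel₀ hN
    rw [sub_mul, ← ha, ← hb, ← Finset.sum_sub_distrib]
    have : ∀ g : E, θ g - θ g * ((χ g : ℤ) : ℂ) = c - c * ((χ g : ℤ) : ℂ) := by
      intro g
      rcases Int.units_eq_one_or (χ g) with h | h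
      · rw [h]; simp
      · rw [h2 g h]
    rw [Finset.sum_congr rfl (fun g _ => this g), Finset.sum_sub_distrib, ← Finset.mul_sum, hsum0,
      Finset.sum_const, Finset.card_univ, nsmul_eq_mul, Nat.card_eq_fintype_card]
    ring

theorem sym_core' {n k : ℕ} (hn : 5 ≤ n) (hk : 2 ≤ k) (G : Subgroup (Perm (Fin n)))
    (hG : alternatingGroup (Fin n) ≤ G) {θ : G → ℂ} (hθ : IsSolHeilbronn θ) {r : ℕ}
    (hr : θ 1 = r) (hlt : r < (2 ^ k - 1) * (n / 2 ^ k)) :
    ∃ a b : ℕ, ∀ g : G, θ g = a + b * ((Perm.sign (g : Perm (Fin n)) : ℤ) : ℂ) := by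
  classical
  have : Fintype G := Fintype.ofFinite G
  have heven : ∀ g : G, Perm.sign (g : Perm (Fin n)) = 1 → θ g = r := by
    intro g hg
    have h1 := alt_core' hn hk (hθ.comp (Subgroup.inclusion hG)) (r := r) (by simpa using hr) hlt
      ⟨(g : Perm (Fin n)), mem_alternatingGroup.mpr hg⟩
    simp only [map_one] at h1
    rw [hr] at h1
    exact h1
  let χ : G →* ℤˣ := Perm.sign.comp G.subtype
  by_cases hodd : ∃ g₀ : G, χ g₀ = -1
  swap
  · push Not at hodd
    refine ⟨r, 0, fun g => ?_⟩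
    rw [heven g ((Int.units_eq_one_or _).resolve_right (hodd g))]
    simp
  obtain ⟨g₀, hg₀⟩ := hodd
  have hoddc : ∀ g : G, χ g = -1 → θ g = θ g₀ := fun g hg =>
    index_two' hθ χ (fun g hg => by rw [heven g hg, hr]) hg hg₀
  obtain ⟨a, b, hab, hab'⟩ := ab_of_sign (hθ.zp g₀) (χ.comp (Subgroup.zpowers g₀).subtype)
    (e₀ := ⟨g₀, Subgroup.mem_zpowers g₀⟩) hg₀ (r := r) (c := θ g₀)
    (fun e he => heven e he) (fun e he => hoddc e he)
  refine ⟨a, b, fun g => ?_⟩
  rcases Int.units_eq_one_or (χ g) with h | h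
  · rw [heven g h, ← hab]
    have : Perm.sign (g : Perm (Fin n)) = 1 := h
    rw [this]; simp
  · rw [hoddc g h, ← hab']
    have : Perm.sign (g : Perm (Fin n)) = -1 := h
    rw [this]; simp; ring

end Pool.Agent.H302R5
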