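import Mathlib
import Pool.Agent.H302R5.Weak2
import Pool.Agent.H302R3.Integral

/-!
# Averages over the fibres of a homomorphism, and extensions
-/

set_option autoImplicit false
set_option linter.unusedSectionVars false

namespace Pool.Agent.H302R5

open Pool.Agent.H302R2 Pool.Agent.H302R3 Pool.Agent.H302R4

universe u v w

section push

variable {G : Type v} [Group G] [Fintype G] {Y : Type u} [Group Y] [Finite Y]

open Classical in
/-- the average of `θ` over the fibre of `π` at `y` -/
noncomputable def push (π : G →* Y) (θ : G → ℂ) (y : Y) : ℂ :=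
  (Nat.card π.ker : ℂ)⁻¹ * ∑ g : G, if π g = y then θ g else 0

lemma card_eq_ker_mul {π : G →* Y} (hπ : Function.Surjective π) :
    Nat.card G = Nat.card π.ker * Nat.card Y := by
  rw [← Nat.card_congr (QuotientGroup.quotientKerEquivOfSurjective π hπ).toEquiv, mul_comm]
  exact Subgroup.card_eq_card_quotient_mul_card_subgroup _

lemma push_conj (π : G →* Y) (hπ : Function.Surjective π) {θ : G → ℂ}
    (hθ : ∀ g h : G, θ (h * g * h⁻¹) = θ g) (y c : Y) :
    push π θ (c * y * c⁻¹) = push π θ y := by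
  classical
  obtain ⟨h, rfl⟩ := hπ c
  unfold push
  congr 1
  rw [← Equiv.sum_comp (MulAut.conj h).toEquiv]
  refine Finset.sum_congr rfl fun g _ => ?_
  have h1 : (MulAut.conj h).toEquiv g = h * g * h⁻¹ := rfl
  rw [h1, hθ, map_mul, map_mul, map_inv]
  have h2 : (π h * π g * (π h)⁻¹ = π h * y * (π h)⁻¹) ↔ π g = y := by
    constructor
    · intro h3
      exact mul_left_cancel (mul_right_cancel h3)
    · rintro rfl; rfl
  by_cases h3 : π g = y
  · rw [if_pos (h2.mpr h3), if_pos h3]
  · rw [if_neg (fun h4 => h3 (h2.mp h4)), if_neg h3]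

lemma sum_push (π : G →* Y) (θ : G → ℂ) (V : Subgroup Y)
    (χ : V →* ℂˣ) :
    ∑ᶠ y : V, push π θ y * (((χ y)⁻¹ : ℂˣ) : ℂ) = (Nat.card π.ker : ℂ)⁻¹ *
      ∑ᶠ u : V.comap π, θ u * (((χ ⟨π u, u.2⟩)⁻¹ : ℂˣ) : ℂ) := by
  classical
  have : Fintype V := Fintype.ofFinite _
  have : Fintype (V.comap π) := Fintype.ofFinite _
  rw [finsum_eq_sum_of_fintype, finsum_eq_sum_of_fintype]
  have h1 : ∀ y : V, push π θ y * (((χ y)⁻¹ : ℂˣ) : ℂ)
      = (Nat.card π.ker : ℂ)⁻¹ *
        ∑ g : G, if π g = y then θ g * (((χ y)⁻¹ : ℂˣ) : ℂ) else 0 := by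
    intro y
    rw [push, mul_assoc, Finset.sum_mul]
    congr 1
    refine Finset.sum_congr rfl fun g _ => ?_
    split_ifs
    · rfl
    · rw [zero_mul]
  rw [Finset.sum_congr rfl (fun y _ => h1 y), ← Finset.mul_sum, Finset.sum_comm]
  congr 1
  have h2 : ∀ g : G, (∑ y : V, if π g = y then θ g * (((χ y)⁻¹ : ℂˣ) : ℂ) else 0)
      = if h : g ∈ V.comap π then θ g * (((χ ⟨π g, h⟩)⁻¹ : ℂˣ) : ℂ) else 0 := by
    intro g
    by_cases h : g ∈ V.comap π
    · rw [dif_pos h, Finset.sum_eq_single (⟨π g, h⟩ : V)]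
      · rw [if_pos rfl]
      · intro y _ hy
        rw [if_neg]
        intro h3
        exact hy (Subtype.ext h3.symm)
      · intro h3; exact absurd (Finset.mem_univ _) h3
    · rw [dif_neg h]
      refine Finset.sum_eq_zero fun y _ => ?_
      rw [if_neg]
      intro h3
      apply h
      rw [Subgroup.mem_comap, h3]
      exact y.2
  rw [Finset.sum_congr rfl (fun g _ => h2 g)]
  have h3 : ∀ u : V.comap π, θ u * (((χ ⟨π u, u.2⟩)⁻¹ : ℂˣ) : ℂ)
      = (fun g : G => if h : g ∈ V.comap π then θ g * (((χ ⟨π g, h⟩)⁻¹ : ℂˣ) : ℂ) else 0) u := by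
    intro u
    simp only [dif_pos u.2]
  rw [Finset.sum_congr rfl (fun u _ => h3 u),
    ← Finset.sum_subtype (Finset.univ.filter fun g => g ∈ V.comap π) (by simp)
      (fun g : G => if h : g ∈ V.comap π then θ g * (((χ ⟨π g, h⟩)⁻¹ : ℂˣ) : ℂ) else 0),
    Finset.sum_filter]
  refine Finset.sum_congr rfl fun g _ => ?_
  by_cases h : g ∈ V.comap π
  · rw [if_pos h]
  · rw [if_neg h, dif_neg h]

lemma card_comap {π : G →* Y} (hπ : Function.Surjective π) (V : Subgroup Y) :
    Nat.card (V.comap π) = Nat.card π.ker * Nat.card V := by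
  let ρ : V.comap π →* V :=
    { toFun := fun u => ⟨π u, u.2⟩
      map_one' := Subtype.ext (map_one π)
      map_mul' := fun a b => Subtype.ext (map_mul π _ _) }
  have hρ : Function.Surjective ρ := by
    rintro ⟨y, hy⟩
    obtain ⟨g, rfl⟩ := hπ y
    exact ⟨⟨g, hy⟩, rfl⟩
  have h1 : Nat.card (V.comap π) = Nat.card ρ.ker * Nat.card V := by
    rw [← Nat.card_congr (QuotientGroup.quotientKerEquivOfSurjective ρ hρ).toEquiv, mul_comm]
    exact Subgroup.card_eq_card_quotient_mul_card_subgroup _
  rw [h1]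
  congr 1
  refine Nat.card_congr
    { toFun := fun x => ⟨x.1.1, congrArg Subtype.val x.2⟩
      invFun := fun x => ⟨⟨x.1, by
        rw [Subgroup.mem_comap, MonoidHom.mem_ker.mp x.2]; exact one_mem V⟩,
        Subtype.ext x.2⟩
      left_inv := fun x => rfl
      right_inv := fun x => rfl }

/-- The average over the fibres of a surjection is a weak Heilbronn function, if the multiplicities
on the preimages of the solvable subgroups are natural numbers. -/
lemma push_isSol {π : G →* Y} (hπ : Function.Surjective π) {θ : G → ℂ}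
    (hθ : ∀ g h : G, θ (h * g * h⁻¹) = θ g)
    (hm : ∀ (V : Subgroup Y), Group.IsSolvable V → ∀ χ : V →* ℂˣ, ∃ n : ℕ,
      ∑ᶠ u : V.comap π, θ u * (((χ ⟨π u, u.2⟩)⁻¹ : ℂˣ) : ℂ) = n * Nat.card (V.comap π)) :
    IsSolHeilbronn (push π θ) where
  conj y c := push_conj π hπ hθ y c
  mult V hV χ := by
    obtain ⟨n, hn⟩ := hm V hV χ
    refine ⟨n, ?_⟩
    have hk : (Nat.card π.ker : ℂ) ≠ 0 := by exact_mod_cast Nat.card_pos.ne'
    rw [sum_push π, hn, card_comap hπ]
    push_cast
    field_simp

lemma norm_push_one_le (π : G →* Y) {θ : G → ℂ} {r : ℝ} (h : ∀ g, ‖θ g‖ ≤ r) :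
    ‖push π θ 1‖ ≤ r := by
  classical
  have hkpos : (0 : ℝ) < Nat.card π.ker := by exact_mod_cast Nat.card_pos
  unfold push
  rw [norm_mul, norm_inv, Complex.norm_natCast, inv_mul_le_iff₀ hkpos]
  have h2 : ‖∑ g : G, if π g = 1 then θ g else 0‖ ≤ ∑ g : G, if π g = 1 then r else 0 := by
    refine (norm_sum_le _ _).trans (Finset.sum_le_sum fun g _ => ?_)
    split_ifs
    · exact h g
    · rw [norm_zero]
  refine h2.trans (le_of_eq ?_)
  rw [← Finset.sum_filter, Finset.sum_const, nsmul_eq_mul]
  congr 2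
  rw [← Fintype.card_subtype, ← Nat.card_eq_fintype_card]
  exact Nat.card_congr (Equiv.subtypeEquivRight fun g => (MonoidHom.mem_ker).symm)

lemma sum_push_all (π : G →* Y) (θ : G → ℂ) :
    ∑ᶠ y : Y, push π θ y = (Nat.card π.ker : ℂ)⁻¹ * ∑ g : G, θ g := by
  classical
  have : Fintype Y := Fintype.ofFinite _
  rw [finsum_eq_sum_of_fintype]
  unfold push
  rw [← Finset.mul_sum, Finset.sum_comm]
  congr 1
  refine Finset.sum_congr rfl fun g _ => ?_
  rw [Finset.sum_eq_single (π g)]
  · rw [if_pos rfl]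
  · intro y _ hy
    rw [if_neg (fun h => hy h.symm)]
  · intro h; exact absurd (Finset.mem_univ _) h

end push

section ext

/-- weak Heilbronn functions of degree at most `r` on `Y` have a nonnegative integral multiplicity
of the trivial character -/
def Good (r : ℕ) (Y : Type u) [Group Y] : Prop :=
  ∀ θ : Y → ℂ, IsSolHeilbronn θ → ∀ r' ≤ r, θ 1 = (r' : ℕ) →
    ∃ n : ℕ, ∑ᶠ y : Y, θ y = n * Nat.card Y

lemma Good.of_sol {r : ℕ} {G : Type v} [Group G] [Finite G] (h : Group.IsSolvable G) :
    Good r G := by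
  intro θ hθ r' _ _
  have : Fintype G := Fintype.ofFinite _
  obtain ⟨n, hn⟩ := hθ.mult_hom h (MonoidHom.id G) 1
  refine ⟨n, ?_⟩
  rw [finsum_eq_sum_of_fintype, ← hn]
  simp

theorem ext_ind {ι : Type w} [DecidableEq ι] (Q : ι → Type u) [∀ i, Group (Q i)]
    [∀ i, Finite (Q i)] (X : ∀ i, Subgroup (Q i)) (r : ℕ)
    (hgood : ∀ i (Y : Subgroup (Q i)), X i ≤ Y → Good r Y)
    (s : Finset ι) : ∀ (G : Type v) [Group G] [Finite G] (f : ∀ i, G →* Q i),
      Group.IsSolvable (⨅ i ∈ s, (f i).ker : Subgroup G) →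
      (∀ x : ∀ i, Q i, (∀ i, x i ∈ X i) → ∃ g, ∀ i ∈ s, f i g = x i) → Good r G := by
  classical
  induction s using Finset.induction_on with
  | empty =>
    intro G _ _ f hsol _
    have h0 : (⨅ i ∈ (∅ : Finset ι), (f i).ker : Subgroup G) = ⊤ := by simp
    have h1 : Group.IsSolvable (⊤ : Subgroup G) := by rw [← h0]; exact hsol
    have h2 : Group.IsSolvable G :=
      Group.isSolvable_of_surjective (f := (⊤ : Subgroup G).subtype) (fun g => ⟨⟨g, trivial⟩, rfl⟩)
    exact Good.of_sol h2
  | insert j s hj ih =>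
    intro G _ _ f hsol hX θ hθ r' hr' hr
    have : Fintype G := Fintype.ofFinite _
    set π : G →* (f j).range := (f j).rangeRestrict with hπ
    have hπs : Function.Surjective π := (f j).rangeRestrict_surjective
    have hπ1 : ∀ g, π g = 1 ↔ f j g = 1 := by
      intro g
      rw [hπ, ← Subtype.coe_inj]
      rfl
    -- positivity on preimages of solvable subgroups
    have hU : ∀ V : Subgroup (f j).range, Group.IsSolvable V → Good r (V.comap π) := by
      intro V hV
      set U := V.comap π with hU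
      have hker : Group.IsSolvable (⨅ i ∈ s, ((f i).comp U.subtype).ker : Subgroup U) := by
        set K := (⨅ i ∈ s, ((f i).comp U.subtype).ker : Subgroup U) with hK
        have hKmem : ∀ x : U, x ∈ K ↔ ∀ i ∈ s, f i x = 1 := by
          intro x
          simp only [hK, Subgroup.mem_iInf, MonoidHom.mem_ker, MonoidHom.comp_apply,
            Subgroup.coe_subtype]
        let K₀ := (⨅ i ∈ insert j s, (f i).ker : Subgroup G)
        have hK₀ : ∀ x : G, x ∈ K₀ ↔ ∀ i ∈ insert j s, f i x = 1 := by
          intro x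
          simp only [K₀, Subgroup.mem_iInf, MonoidHom.mem_ker]
        let a : K₀ →* K :=
          { toFun := fun x => ⟨⟨x.1, by
                rw [hU, Subgroup.mem_comap, (hπ1 x.1).mpr
                  ((hK₀ x.1).mp x.2 j (Finset.mem_insert_self _ _))]
                exact one_mem V⟩, (hKmem _).mpr fun i hi =>
                  (hK₀ x.1).mp x.2 i (Finset.mem_insert_of_mem hi)⟩
            map_one' := rfl
            map_mul' := fun _ _ => rfl }
        let b : K →* V :=
          { toFun := fun x => ⟨π x.1.1, x.1.2⟩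
            map_one' := Subtype.ext (map_one π)
            map_mul' := fun x y => Subtype.ext (map_mul π _ _) }
        have h1 : Group.IsSolvable K₀ := hsol
        refine Group.isSolvable_of_ker_le_range a b ?_
        intro x hx
        have hx' : π x.1.1 = 1 := congrArg Subtype.val hx
        refine ⟨⟨x.1.1, (hK₀ _).mpr fun i hi => ?_⟩, rfl⟩
        rcases Finset.mem_insert.mp hi with rfl | hi
        · exact (hπ1 _).mp hx'
        · exact (hKmem x.1).mp x.2 i hi
      refine ih U (fun i => (f i).comp U.subtype) hker ?_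
      intro x hx
      obtain ⟨g, hg⟩ := hX (Function.update x j 1) (by
        intro i
        by_cases hij : i = j
        · subst hij
          rw [Function.update_self]
          exact one_mem _
        · rw [Function.update_of_ne hij]
          exact hx i)
      refine ⟨⟨g, ?_⟩, fun i hi => ?_⟩
      · rw [hU, Subgroup.mem_comap, (hπ1 g).mpr (by
          rw [hg j (Finset.mem_insert_self _ _), Function.update_self])]
        exact one_mem V
      · have hij : i ≠ j := fun h => hj (h ▸ hi)
        change f i g = x i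
        rw [hg i (Finset.mem_insert_of_mem hi), Function.update_of_ne hij]
    -- the average is a weak Heilbronn function
    have hpush : IsSolHeilbronn (push π θ) := by
      refine push_isSol hπs hθ.conj ?_
      intro V hV χ
      let ρ : V.comap π →* V :=
        { toFun := fun u => ⟨π u, u.2⟩
          map_one' := Subtype.ext (map_one π)
          map_mul' := fun a b => Subtype.ext (map_mul π _ _) }
      have h1 := (hθ.comp (V.comap π).subtype).twist (χ.comp ρ)
      have h2 : (θ ((V.comap π).subtype 1)) * ((((χ.comp ρ) 1)⁻¹ : ℂˣ) : ℂ) = r' := by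
        rw [map_one, map_one, hr, inv_one, Units.val_one, mul_one]
      exact hU V hV _ h1 r' hr' h2
    obtain ⟨r'', hr''⟩ := hpush.exists_deg
    have hk : (Nat.card π.ker : ℂ) ≠ 0 := by exact_mod_cast Nat.card_pos.ne'
    have hle : r'' ≤ r' := by
      have h1 : ‖(push π θ) 1‖ ≤ r' := by
        refine norm_push_one_le π fun g => ?_
        have := hθ.norm_le g
        rwa [hr, Complex.natCast_re] at this
      rw [hr'', Complex.norm_natCast] at h1
      exact_mod_cast h1
    have hXj : X j ≤ (f j).range := by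
      intro x hx
      obtain ⟨g, hg⟩ := hX (fun i => if h : i = j then h ▸ x else 1) (by
        intro i
        by_cases h : i = j
        · subst h; simpa using hx
        · simp only [h, dif_neg, not_false_eq_true]
          exact one_mem _)
      refine ⟨g, ?_⟩
      rw [hg j (Finset.mem_insert_self _ _)]
      change (if h : j = j then h ▸ x else 1) = x
      rw [dif_pos rfl]
    obtain ⟨n, hn⟩ := hgood j (f j).range hXj (push π θ) hpush r'' (hle.trans hr') hr''
    refine ⟨n, ?_⟩
    have h5 := sum_push_all π θ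
    rw [finsum_eq_sum_of_fintype, card_eq_ker_mul hπs]
    rw [h5] at hn
    push_cast
    rw [inv_mul_eq_iff_eq_mul₀ hk] at hn
    rw [hn]
    ring

/-- Main extension theorem. -/
theorem ext_main {ι : Type w} [Finite ι] (Q : ι → Type u) [∀ i, Group (Q i)]
    [∀ i, Finite (Q i)] (X : ∀ i, Subgroup (Q i)) {r : ℕ}
    (hgood : ∀ i (Y : Subgroup (Q i)), X i ≤ Y → Good r Y) {G : Type v} [Group G] [Finite G]
    (f : ∀ i, G →* Q i) (hsol : Group.IsSolvable (⨅ i, (f i).ker : Subgroup G))
    (hX : ∀ x : ∀ i, Q i, (∀ i, x i ∈ X i) → ∃ g, ∀ i, f i g = x i)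
    {θ : G → ℂ} (hθ : IsSolHeilbronn θ) (hr : θ 1 = r) (χ : G →* ℂˣ) :
    ∃ n : ℕ, ∑ᶠ g : G, θ g * (((χ g)⁻¹ : ℂˣ) : ℂ) = n * Nat.card G := by
  classical
  have : Fintype ι := Fintype.ofFinite _
  refine ext_ind Q X r hgood Finset.univ G f ?_ ?_ _ (hθ.twist χ) r le_rfl (by simp [hr])
  · have h0 : (⨅ i ∈ (Finset.univ : Finset ι), (f i).ker : Subgroup G) = ⨅ i, (f i).ker := by simp
    rw [h0]; exact hsol
  · intro x hx
    obtain ⟨g, hg⟩ := hX x hx
    exact ⟨g, fun i _ => hg i⟩

end ext

end Pool.Agent.H302R5
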