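import Mathlib
import Pool.Agent.H302R5.SymFinal
import Pool.Agent.H302R5.Push

/-!
# Groups mapping to products of symmetric groups with solvable kernel
-/

set_option autoImplicit false

namespace Pool.Agent.H302R5

open Equiv Equiv.Perm Pool.Agent.H302R2 Pool.Agent.H302R3 Pool.Agent.H302R4

/-- groups between the alternating and the symmetric group -/
theorem good_sym {n k r : ℕ} (hn : 5 ≤ n) (hk : 2 ≤ k) (hlt : r < (2 ^ k - 1) * (n / 2 ^ k))
    (Y : Subgroup (Perm (Fin n))) (hY : alternatingGroup (Fin n) ≤ Y) : Good r Y := by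
  classical
  intro θ hθ r' hr' hr
  obtain ⟨a, b, hab⟩ := sym_core' hn hk Y hY hθ hr (lt_of_le_of_lt hr' hlt)
  have : Fintype Y := Fintype.ofFinite _
  rw [finsum_eq_sum_of_fintype]
  by_cases hodd : ∃ g₀ : Y, Perm.sign (g₀ : Perm (Fin n)) = -1
  · obtain ⟨g₀, hg₀⟩ := hodd
    refine ⟨a, ?_⟩
    have hsum0 : ∑ g : Y, ((Perm.sign (g : Perm (Fin n)) : ℤ) : ℂ) = 0 := by
      have h1 : ∑ g : Y, ((Perm.sign (g : Perm (Fin n)) : ℤ) : ℂ)
          = ∑ g : Y, ((Perm.sign ((g * g₀ : Y) : Perm (Fin n)) : ℤ) : ℂ) :=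
        (Equiv.sum_comp (Equiv.mulRight g₀)
          (fun g : Y => ((Perm.sign (g : Perm (Fin n)) : ℤ) : ℂ))).symm
      have h2 : ∑ g : Y, ((Perm.sign ((g * g₀ : Y) : Perm (Fin n)) : ℤ) : ℂ)
          = - ∑ g : Y, ((Perm.sign (g : Perm (Fin n)) : ℤ) : ℂ) := by
        rw [← Finset.sum_neg_distrib]
        refine Finset.sum_congr rfl fun g _ => ?_
        rw [Subgroup.coe_mul, Perm.sign_mul, hg₀]; simp
      rw [h2] at h1
      linear_combination h1 / 2
    rw [Finset.sum_congr rfl (fun g _ => hab g), Finset.sum_add_distrib, ← Finset.mul_sum, hsum0,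
      Finset.sum_const, Finset.card_univ, nsmul_eq_mul, Nat.card_eq_fintype_card]
    ring
  · push Not at hodd
    refine ⟨a + b, ?_⟩
    have h1 : ∀ g : Y, θ g = a + b := by
      intro g
      rw [hab g, (Int.units_eq_one_or _).resolve_right (hodd g)]
      simp
    rw [Finset.sum_congr rfl (fun g _ => h1 g), Finset.sum_const, Finset.card_univ, nsmul_eq_mul,
      Nat.card_eq_fintype_card]
    push_cast
    ring

universe v w

theorem sym_main {ι : Type w} [Finite ι] (n k : ι → ℕ) (hn : ∀ i, 5 ≤ n i) (hk : ∀ i, 2 ≤ k i)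
    {G : Type v} [Group G] [Finite G] (f : ∀ i, G →* Perm (Fin (n i)))
    (hsol : Group.IsSolvable (⨅ i, (f i).ker : Subgroup G))
    (hA : ∀ x : ∀ i, Perm (Fin (n i)), (∀ i, x i ∈ alternatingGroup (Fin (n i))) →
      ∃ g, ∀ i, f i g = x i)
    {θ : G → ℂ} (hθ : IsSolHeilbronn θ) {r : ℕ} (hr : θ 1 = r)
    (hlt : ∀ i, r < (2 ^ (k i) - 1) * (n i / 2 ^ (k i))) (χ : G →* ℂˣ) :
    ∃ m : ℕ, ∑ᶠ g : G, θ g * (((χ g)⁻¹ : ℂˣ) : ℂ) = m * Nat.card G :=
  ext_main (fun i => Perm (Fin (n i))) (fun i => alternatingGroup (Fin (n i)))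
    (fun i Y hY => good_sym (hn i) (hk i) (hlt i) Y hY) f hsol hA hθ hr χ

end Pool.Agent.H302R5
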